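import Mathlib

set_option autoImplicit false

open Filter Topology

namespace Pool.Agent.H44.LA

/-- `h` has the L-property on the sequence `z`: for every compact subset `K` of the image of `h`,
`h (z k)` lies in `K` for only finitely many `k`. -/
def LProp {n : ℕ} (h : (Fin n → ℂ) → ℂ) (z : ℕ → Fin n → ℂ) : Prop :=
  ∀ K : Set ℂ, IsCompact K → K ⊆ Set.range h → {k : ℕ | h (z k) ∈ K}.Finite

/-- `(f, g)` is an ordered L-pair: `g` has the L-property on every sequence tending to infinity on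
which `f` has the L-property. -/
def LPair {n : ℕ} (f g : (Fin n → ℂ) → ℂ) : Prop :=
  ∀ z : ℕ → Fin n → ℂ, Tendsto (fun k => ‖z k‖) atTop atTop → LProp f z → LProp g z

/-- `α` is an L-atom on `ℂⁿ`: a nonconstant entire function such that every entire `f` for which
`(f, α)` is an ordered L-pair is `φ ∘ α` for a function `φ` holomorphic on the image of `α`. -/
def LAtom {n : ℕ} (α : (Fin n → ℂ) → ℂ) : Prop :=
  Differentiable ℂ α ∧ (∃ x y, α x ≠ α y) ∧
    ∀ f : (Fin n → ℂ) → ℂ, Differentiable ℂ f → LPair f α →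
      ∃ φ : ℂ → ℂ, DifferentiableOn ℂ φ (Set.range α) ∧ ∀ z, f z = φ (α z)

/-- `F` is an analytic automorphism of `ℂⁿ`: an injective holomorphic map of `ℂⁿ` onto `ℂⁿ`. -/
def IsAut {n : ℕ} (F : (Fin n → ℂ) → (Fin n → ℂ)) : Prop :=
  Differentiable ℂ F ∧ Function.Injective F ∧ Function.Surjective F

/-- `f` is the first component of an analytic automorphism of `ℂ^(m+1)`. -/
def FirstComp {m : ℕ} (f : (Fin (m + 1) → ℂ) → ℂ) : Prop :=
  ∃ F : (Fin (m + 1) → ℂ) → (Fin (m + 1) → ℂ), IsAut F ∧ ∀ z, F z 0 = f z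

/-! ### Liouville off the zeros of an entire function -/

lemma ev_ne {q : ℂ → ℂ} (hq : Differentiable ℂ q) {s : ℂ} (hs : q s ≠ 0) (t : ℂ) :
    ∀ᶠ x in 𝓝[≠] t, q x ≠ 0 := by
  have ha : AnalyticOnNhd ℂ q Set.univ := fun x _ => hq.analyticAt x
  rcases (ha t (Set.mem_univ _)).eventually_eq_zero_or_eventually_ne_zero with h | h
  · exfalso
    have := ha.eqOn_zero_of_preconnected_of_eventuallyEq_zero isPreconnected_univ
      (Set.mem_univ t) h
    exact hs (this (Set.mem_univ s))
  · exact h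

/-- Liouville's theorem for a bounded holomorphic function on the complement of the zero set of a
nonzero entire function. -/
lemma liouville_off {q u : ℂ → ℂ} (hq : Differentiable ℂ q)
    (hu : ∀ t, q t ≠ 0 → DifferentiableAt ℂ u t) {M : ℝ} (hM : ∀ t, q t ≠ 0 → ‖u t‖ ≤ M)
    {s t : ℂ} (hs : q s ≠ 0) (ht : q t ≠ 0) : u s = u t := by
  set v : ℂ → ℂ := fun x => limUnder (𝓝[≠] x) u with hv
  have hvu : ∀ x, q x ≠ 0 → v x = u x := fun x hx =>
    ((hu x hx).continuousAt.tendsto.mono_left nhdsWithin_le_nhds).limUnder_eq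
  have hvd : Differentiable ℂ v := by
    intro x
    have h := ev_ne hq hs x
    rw [eventually_nhdsWithin_iff] at h
    obtain ⟨U, hU, hUo, hxU⟩ := eventually_nhds_iff.1 h
    have hd : DifferentiableOn ℂ u (U \ {x}) := fun y hy =>
      (hu y (hU y hy.1 hy.2)).differentiableWithinAt
    have hb : BddAbove (norm ∘ u '' (U \ {x})) := by
      refine ⟨M, ?_⟩
      rintro _ ⟨y, hy, rfl⟩
      exact hM y (hU y hy.1 hy.2)
    have h2 := Complex.differentiableOn_update_limUnder_of_bddAbove (hUo.mem_nhds hxU) hd hb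
    have h3 := (h2 x hxU).differentiableAt (hUo.mem_nhds hxU)
    refine h3.congr_of_eventuallyEq ?_
    filter_upwards [hUo.mem_nhds hxU] with y hy
    by_cases hyx : y = x
    · subst hyx; simp [hv]
    · rw [Function.update_of_ne hyx, hvu y (hU y hy hyx)]
  have hvb : ∀ x, ‖v x‖ ≤ M := by
    intro x
    have h1 : Tendsto (fun y => ‖v y‖) (𝓝[≠] x) (𝓝 ‖v x‖) :=
      (hvd.continuous.norm.tendsto x).mono_left nhdsWithin_le_nhds
    refine le_of_tendsto h1 ?_
    filter_upwards [ev_ne hq hs x] with y hy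
    rw [hvu y hy]
    exact hM y hy
  have h4 : v s = v t := by
    apply hvd.apply_eq_apply_of_bounded
    rw [isBounded_iff_forall_norm_le]
    refine ⟨M, ?_⟩
    rintro _ ⟨y, rfl⟩
    exact hvb y
  rwa [hvu s hs, hvu t ht] at h4

/-! ### Boundedness on the fibres -/

lemma bdd_fibre {n : ℕ} {f α : (Fin n → ℂ) → ℂ} (hf : Differentiable ℂ f) (hp : LPair f α)
    (c : ℂ) (hc : c ∈ Set.range α) : ∃ M : ℝ, ∀ z, α z = c → ‖f z‖ ≤ M := by
  by_contra hcon
  push Not at hcon
  have hk : ∀ k : ℕ, ∃ z, α z = c ∧ (k : ℝ) < ‖f z‖ := fun k => hcon k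
  choose z hz1 hz2 using hk
  have htend : Tendsto (fun k => ‖z k‖) atTop atTop := by
    rw [tendsto_atTop]
    intro M
    obtain ⟨B, hB⟩ := (isCompact_closedBall (0 : Fin n → ℂ) M).exists_bound_of_continuousOn
      hf.continuous.continuousOn
    obtain ⟨N, hN⟩ := exists_nat_ge B
    filter_upwards [eventually_ge_atTop N] with k hk
    by_contra hlt
    have h1 : z k ∈ Metric.closedBall (0 : Fin n → ℂ) M := by
      rw [mem_closedBall_zero_iff]; linarith [not_le.1 hlt]
    have h2 := hB _ h1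
    have h3 := hz2 k
    have h4 : (N : ℝ) ≤ k := by exact_mod_cast hk
    linarith
  have hfL : LProp f z := by
    intro K hK _
    obtain ⟨B, hB⟩ := hK.isBounded.exists_norm_le
    obtain ⟨N, hN⟩ := exists_nat_ge B
    apply (Set.finite_lt_nat N).subset
    intro k hk
    have h1 := hB _ hk
    have h2 := hz2 k
    have h3 : (k : ℝ) < N := by linarith
    exact_mod_cast h3
  have hαL := hp z htend hfL {c} isCompact_singleton (by rintro _ rfl; exact hc)
  have huniv : {k : ℕ | α (z k) ∈ ({c} : Set ℂ)} = Set.univ := by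
    ext k
    simp [hz1 k]
  rw [huniv] at hαL
  exact Set.infinite_univ hαL

/-! ### Functions of degree one in the first variable -/

/-- the function `z ↦ z₀ Q(z₁, …, z_m) + R(z₁, …, z_m)` -/
def aff {m : ℕ} (Q R : (Fin m → ℂ) → ℂ) (z : Fin (m + 1) → ℂ) : ℂ :=
  z 0 * Q (Fin.tail z) + R (Fin.tail z)

lemma diff_tail (m : ℕ) : Differentiable ℂ (fun z : Fin (m + 1) → ℂ => Fin.tail z) :=
  differentiable_pi.2 fun i => differentiable_apply i.succ

lemma aff_diff {m : ℕ} {Q R : (Fin m → ℂ) → ℂ} (hQ : Differentiable ℂ Q)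
    (hR : Differentiable ℂ R) : Differentiable ℂ (aff Q R) :=
  ((differentiable_apply (0 : Fin (m + 1))).mul (hQ.comp (diff_tail m))).add
    (hR.comp (diff_tail m))

lemma aff_cons {m : ℕ} (Q R : (Fin m → ℂ) → ℂ) (x : ℂ) (y : Fin m → ℂ) :
    aff Q R (Fin.cons x y : Fin (m + 1) → ℂ) = x * Q y + R y := by
  simp [aff]

/-- the point of the fibre over `c` above `y` -/
noncomputable def pt {m : ℕ} (Q R : (Fin m → ℂ) → ℂ) (c : ℂ) (y : Fin m → ℂ) :
    Fin (m + 1) → ℂ := Fin.cons ((c - R y) / Q y) y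

lemma aff_pt {m : ℕ} {Q R : (Fin m → ℂ) → ℂ} (c : ℂ) {y : Fin m → ℂ} (hy : Q y ≠ 0) :
    aff Q R (pt Q R c y) = c := by
  rw [pt, aff_cons]; field_simp; ring

lemma diffAt_cons {m : ℕ} {E : Type} [NormedAddCommGroup E] [NormedSpace ℂ E] {a : E → ℂ}
    {b : E → (Fin m → ℂ)} {e : E} (ha : DifferentiableAt ℂ a e) (hb : DifferentiableAt ℂ b e) :
    DifferentiableAt ℂ (fun x => (Fin.cons (a x) (b x) : Fin (m + 1) → ℂ)) e := by
  rw [differentiableAt_pi]
  intro i
  refine Fin.cases ?_ (fun j => ?_) i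
  · simpa using ha
  · simpa using (differentiableAt_pi.1 hb) j

theorem aff_atom {m : ℕ} {Q R : (Fin m → ℂ) → ℂ} (hQ : Differentiable ℂ Q)
    (hR : Differentiable ℂ R) {y₀ : Fin m → ℂ} (h0 : Q y₀ ≠ 0) : LAtom (aff Q R) := by
  refine ⟨aff_diff hQ hR, ⟨Fin.cons 1 y₀, Fin.cons 0 y₀, ?_⟩, ?_⟩
  · rw [aff_cons, aff_cons]
    intro h
    apply h0
    linear_combination h
  · intro f hf hp
    have key : ∀ (c : ℂ) (y : Fin m → ℂ), Q y ≠ 0 → f (pt Q R c y) = f (pt Q R c y₀) := by
      intro c y hy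
      obtain ⟨M, hM⟩ := bdd_fibre hf hp c ⟨_, aff_pt c h0⟩
      let l : ℂ → (Fin m → ℂ) := fun t => y₀ + t • (y - y₀)
      have hl : Differentiable ℂ l := fun t => (differentiableAt_id.smul_const _).const_add _
      have h := liouville_off (q := fun t => Q (l t)) (u := fun t => f (pt Q R c (l t)))
        (hQ.comp hl) (fun t ht => by
          refine (hf _).comp t ?_
          refine diffAt_cons ?_ (hl t)
          exact ((differentiableAt_const c).sub ((hR.comp hl) t)).div ((hQ.comp hl) t) ht)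
        (M := M) (fun t ht => hM _ (aff_pt c ht)) (s := 1) (t := 0)
        (by simpa [l] using hy) (by simpa [l] using h0)
      simpa [l] using h
    have hgen : ∀ z : Fin (m + 1) → ℂ, Q (Fin.tail z) ≠ 0 →
        f z = f (pt Q R (aff Q R z) y₀) := by
      intro z hz
      rw [← key _ _ hz]
      congr 1
      have : (aff Q R z - R (Fin.tail z)) / Q (Fin.tail z) = z 0 := by
        rw [aff]; field_simp; ring
      rw [pt, this, Fin.cons_self_tail]
    have hptc : Differentiable ℂ (fun c => pt Q R c y₀) := by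
      intro c
      refine diffAt_cons ?_ (differentiableAt_const _)
      exact (differentiableAt_id.sub (differentiableAt_const _)).div_const _
    refine ⟨fun c => f (pt Q R c y₀), (hf.comp hptc).differentiableOn, ?_⟩
    intro z
    let w : ℂ → (Fin (m + 1) → ℂ) := fun t => z + t • ((Fin.cons 0 y₀ : Fin (m + 1) → ℂ) - z)
    have hw : Differentiable ℂ w := fun t => (differentiableAt_id.smul_const _).const_add _
    have hw0 : w 0 = z := by simp [w]
    have hw1 : w 1 = Fin.cons 0 y₀ := by simp [w]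
    have hev := ev_ne (q := fun t => Q (Fin.tail (w t))) (hQ.comp ((diff_tail m).comp hw))
      (s := 1) (by simpa [hw1] using h0) 0
    have h1 : Tendsto (fun t => f (w t)) (𝓝[≠] 0) (𝓝 (f (w 0))) :=
      ((hf.comp hw).continuous.tendsto 0).mono_left nhdsWithin_le_nhds
    have h2 : Tendsto (fun t => f (pt Q R (aff Q R (w t)) y₀)) (𝓝[≠] 0)
        (𝓝 (f (pt Q R (aff Q R (w 0)) y₀))) :=
      (((hf.comp hptc).comp ((aff_diff hQ hR).comp hw)).continuous.tendsto 0).mono_left
        nhdsWithin_le_nhds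
    have h3 := tendsto_nhds_unique_of_eventuallyEq h1 h2 (by
      filter_upwards [hev] with t ht
      exact hgen _ ht)
    rwa [hw0] at h3

end Pool.Agent.H44.LA
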