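import Mathlib
import Pool.Agent.H44.LA.Basic
import Pool.Agent.H44.LA.Osgood

set_option autoImplicit false

open Filter Topology

namespace Pool.Agent.H44.LA

/-- the inverse of an automorphism is holomorphic -/
lemma aut_inv {n : ℕ} {F : (Fin n → ℂ) → (Fin n → ℂ)} (hF : IsAut F) :
    ∃ G : (Fin n → ℂ) → (Fin n → ℂ), Differentiable ℂ G ∧ (∀ z, G (F z) = z) ∧
      ∀ w, F (G w) = w := by
  obtain ⟨hFd, hFi, hFs⟩ := hF
  choose G hG using hFs
  refine ⟨G, ?_, fun z => hFi (hG (F z)), hG⟩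
  rw [← differentiableOn_univ]
  exact Pool.Agent.H44.LA.Osg.differentiableOn_of_comp (E := Fin n → ℂ) (F := Fin n → ℂ) rfl
    isOpen_univ isOpen_univ hFd.differentiableOn hFi.injOn (g := fun z => z)
    differentiableOn_id (fun z _ => Set.mem_univ _) (fun z _ => hG z)

/-- an automorphism of `ℂⁿ` maps sequences tending to infinity to such sequences -/
lemma aut_tendsto {n : ℕ} {G F : (Fin n → ℂ) → (Fin n → ℂ)} (hF : Differentiable ℂ F)
    (h2 : ∀ w, F (G w) = w) {z : ℕ → Fin n → ℂ} (hz : Tendsto (fun k => ‖z k‖) atTop atTop) :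
    Tendsto (fun k => ‖G (z k)‖) atTop atTop := by
  rw [tendsto_atTop]
  intro M
  obtain ⟨B, hB⟩ := (isCompact_closedBall (0 : Fin n → ℂ) M).exists_bound_of_continuousOn
    hF.continuous.continuousOn
  filter_upwards [hz.eventually_gt_atTop B] with k hk
  by_contra hlt
  have h1 : G (z k) ∈ Metric.closedBall (0 : Fin n → ℂ) M := by
    rw [mem_closedBall_zero_iff]; linarith [not_le.1 hlt]
  have h3 := hB _ h1
  rw [h2] at h3
  linarith

/-- L-atoms are preserved by automorphisms of `ℂⁿ`. -/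
theorem atom_comp {n : ℕ} {α : (Fin n → ℂ) → ℂ} (hα : LAtom α)
    {F : (Fin n → ℂ) → (Fin n → ℂ)} (hF : IsAut F) : LAtom (fun z => α (F z)) := by
  obtain ⟨G, hGd, hGF, hFG⟩ := aut_inv hF
  have hFd := hF.1
  obtain ⟨h1, ⟨x, y, hxy⟩, h3⟩ := hα
  have hr : Set.range (fun z => α (F z)) = Set.range α := by
    ext c
    constructor
    · rintro ⟨z, rfl⟩; exact ⟨F z, rfl⟩
    · rintro ⟨w, rfl⟩; exact ⟨G w, by simp [hFG]⟩
  refine ⟨h1.comp hFd, ⟨G x, G y, by simpa [hFG] using hxy⟩, ?_⟩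
  intro f hf hp
  obtain ⟨φ, hφ, hφ2⟩ := h3 (fun w => f (G w)) (hf.comp hGd) (by
    intro z hz hL
    have hz' := aut_tendsto (G := G) hFd hFG hz
    have hrf : Set.range (fun w => f (G w)) = Set.range f := by
      ext c
      constructor
      · rintro ⟨z, rfl⟩; exact ⟨G z, rfl⟩
      · rintro ⟨w, rfl⟩; exact ⟨F w, by simp [hGF]⟩
    have hL' : LProp f (fun k => G (z k)) := by
      intro K hK hKr
      exact hL K hK (by rw [hrf]; exact hKr)
    have h := hp _ hz' hL'
    intro K hK hKr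
    have h' := h K hK (by rw [hr]; exact hKr)
    simpa [hFG] using h')
  refine ⟨φ, by rw [hr]; exact hφ, fun z => ?_⟩
  have := hφ2 (F z)
  simpa [hGF] using this

/-- The first component of an automorphism has no critical point. -/
lemma first_fderiv {m : ℕ} {f : (Fin (m + 1) → ℂ) → ℂ} (hf : FirstComp f)
    (z : Fin (m + 1) → ℂ) : fderiv ℂ f z ≠ 0 := by
  obtain ⟨F, hF, hF0⟩ := hf
  obtain ⟨G, hGd, hGF, hFG⟩ := aut_inv hF
  have hFd := hF.1
  have hfd : Differentiable ℂ f := by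
    have : f = fun z => F z 0 := funext fun z => (hF0 z).symm
    rw [this]
    exact differentiable_pi.1 hFd 0
  intro h0
  have e1 : HasFDerivAt (fun w => f (G w)) ((fderiv ℂ f z).comp (fderiv ℂ G (F z))) (F z) := by
    have h1 : HasFDerivAt f (fderiv ℂ f z) (G (F z)) := by
      rw [hGF]; exact (hfd z).hasFDerivAt
    exact h1.comp (F z) (hGd (F z)).hasFDerivAt
  have e2 : (fun w => f (G w)) = fun w : Fin (m + 1) → ℂ => w 0 := by
    funext w
    rw [← hF0, hFG]
  rw [e2, h0, ContinuousLinearMap.zero_comp] at e1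
  have e3 : HasFDerivAt (fun w : Fin (m + 1) → ℂ => w 0)
      (ContinuousLinearMap.proj (R := ℂ) (φ := fun _ : Fin (m + 1) => ℂ) 0) (F z) :=
    (ContinuousLinearMap.proj (R := ℂ) (φ := fun _ : Fin (m + 1) => ℂ) 0).hasFDerivAt
  have e4 := e1.unique e3
  have e5 := congrArg (fun L : (Fin (m + 1) → ℂ) →L[ℂ] ℂ => L (fun _ => 1)) e4
  simp at e5

/-- The fibres of the first component of an automorphism are connected. -/
lemma first_conn {m : ℕ} {f : (Fin (m + 1) → ℂ) → ℂ} (hf : FirstComp f) (c : ℂ) :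
    IsPreconnected {z | f z = c} := by
  obtain ⟨F, hF, hF0⟩ := hf
  obtain ⟨G, hGd, hGF, hFG⟩ := aut_inv hF
  have hFd := hF.1
  have h1 : IsPreconnected {w : Fin (m + 1) → ℂ | w 0 = c} := by
    have hconv : Convex ℝ {w : Fin (m + 1) → ℂ | w 0 = c} := by
      intro x hx y hy a b _ _ hab
      simp only [Set.mem_ofPred_eq] at hx hy ⊢
      simp only [Pi.add_apply, Pi.smul_apply, hx, hy]
      rw [← add_smul, hab, one_smul]
    exact hconv.isPreconnected
  have h2 : {z | f z = c} = G '' {w : Fin (m + 1) → ℂ | w 0 = c} := by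
    ext z
    constructor
    · intro hz
      exact ⟨F z, by simpa [hF0] using hz, hGF z⟩
    · rintro ⟨w, hw, rfl⟩
      simp only [Set.mem_ofPred_eq] at hw ⊢
      rw [← hF0, hFG, hw]
  rw [h2]
  exact h1.image G hGd.continuous.continuousOn

/-- the function `z ↦ z₀ q(z₁) + r(z₁)` on `ℂ^(m+2)` -/
def aff1 {m : ℕ} (q r : ℂ → ℂ) (z : Fin (m + 2) → ℂ) : ℂ := z 0 * q (z 1) + r (z 1)

lemma aff1_eq {m : ℕ} (q r : ℂ → ℂ) : (aff1 q r : (Fin (m + 2) → ℂ) → ℂ) =
    aff (fun y : Fin (m + 1) → ℂ => q (y 0)) (fun y => r (y 0)) := by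
  funext z
  simp [aff1, aff, Fin.tail]

lemma one_ne_zero' (m : ℕ) : (1 : Fin (m + 2)) ≠ 0 := by simp

/-- the point with first two coordinates `a`, `b` and the others `0` -/
def pt2 (m : ℕ) (a b : ℂ) : Fin (m + 2) → ℂ := fun i => if i = 0 then a else if i = 1 then b else 0

lemma pt2_0 (m : ℕ) (a b : ℂ) : pt2 m a b 0 = a := by simp [pt2]
lemma pt2_1 (m : ℕ) (a b : ℂ) : pt2 m a b 1 = b := by simp [pt2]

/-- if `q` has a zero then `z₀ q(z₁) + r(z₁)` is not the first component of an automorphism -/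
theorem not_first {m : ℕ} {q r : ℂ → ℂ} (hq : Differentiable ℂ q) (hr : Differentiable ℂ r)
    {s : ℂ} (hs : q s ≠ 0) {t : ℂ} (ht : q t = 0) :
    ¬ FirstComp (aff1 q r : (Fin (m + 2) → ℂ) → ℂ) := by
  intro hf
  -- no critical points on the hyperplane `z₁ = t`
  have hcrit : ∀ a : ℂ, a * deriv q t + deriv r t ≠ 0 := by
    intro a ha
    apply first_fderiv hf (pt2 m a t)
    have p0 : HasFDerivAt (fun z : Fin (m + 2) → ℂ => z 0)
        (ContinuousLinearMap.proj (R := ℂ) (φ := fun _ : Fin (m + 2) => ℂ) 0) (pt2 m a t) :=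
      (ContinuousLinearMap.proj (R := ℂ) (φ := fun _ : Fin (m + 2) => ℂ) 0).hasFDerivAt
    have p1 : HasFDerivAt (fun z : Fin (m + 2) → ℂ => z 1)
        (ContinuousLinearMap.proj (R := ℂ) (φ := fun _ : Fin (m + 2) => ℂ) 1) (pt2 m a t) :=
      (ContinuousLinearMap.proj (R := ℂ) (φ := fun _ : Fin (m + 2) => ℂ) 1).hasFDerivAt
    have q1 : HasFDerivAt (fun z : Fin (m + 2) → ℂ => q (z 1))
        (deriv q t • (ContinuousLinearMap.proj (R := ℂ) (φ := fun _ : Fin (m + 2) => ℂ) 1))
        (pt2 m a t) := by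
      have h : HasDerivAt q (deriv q t) ((fun z : Fin (m + 2) → ℂ => z 1) (pt2 m a t)) := by
        simp only [pt2_1]; exact (hq t).hasDerivAt
      exact HasDerivAt.comp_hasFDerivAt (pt2 m a t) h p1
    have r1 : HasFDerivAt (fun z : Fin (m + 2) → ℂ => r (z 1))
        (deriv r t • (ContinuousLinearMap.proj (R := ℂ) (φ := fun _ : Fin (m + 2) => ℂ) 1))
        (pt2 m a t) := by
      have h : HasDerivAt r (deriv r t) ((fun z : Fin (m + 2) → ℂ => z 1) (pt2 m a t)) := by
        simp only [pt2_1]; exact (hr t).hasDerivAt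
      exact HasDerivAt.comp_hasFDerivAt (pt2 m a t) h p1
    have tot := (p0.mul q1).add r1
    have h2 := tot.fderiv
    change fderiv ℂ (aff1 q r) (pt2 m a t) = 0
    have h3 : fderiv ℂ (aff1 q r) (pt2 m a t) = _ := h2
    rw [h3]
    ext v
    simp only [pt2_0, pt2_1, ht, add_apply, smul_apply,
      ContinuousLinearMap.proj_apply, smul_eq_mul, zero_mul, add_zero,
      zero_apply]
    linear_combination (v 1) * ha
  have hq' : deriv q t = 0 := by
    by_contra h
    exact hcrit (-(deriv r t) / deriv q t) (by field_simp; ring)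
  have hr' : deriv r t ≠ 0 := by
    have := hcrit 0
    simpa using this
  -- the quotient by `z₁ - t`
  let u : (Fin (m + 2) → ℂ) → ℂ := fun z => z 0 * dslope q t (z 1) + dslope r t (z 1)
  have hqc : Continuous (dslope q t) := by
    rw [← continuousOn_univ]
    exact (continuousOn_dslope Filter.univ_mem).2 ⟨hq.continuous.continuousOn, hq t⟩
  have hrc : Continuous (dslope r t) := by
    rw [← continuousOn_univ]
    exact (continuousOn_dslope Filter.univ_mem).2 ⟨hr.continuous.continuousOn, hr t⟩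
  have hu : Continuous u := by
    have c0 : Continuous (fun z : Fin (m + 2) → ℂ => z 0) := continuous_apply 0
    have c1 : Continuous (fun z : Fin (m + 2) → ℂ => z 1) := continuous_apply 1
    exact (c0.mul (hqc.comp c1)).add (hrc.comp c1)
  have hfac : ∀ z : Fin (m + 2) → ℂ, aff1 q r z - r t = (z 1 - t) * u z := by
    intro z
    have e1 := sub_smul_dslope q t (z 1)
    have e2 := sub_smul_dslope r t (z 1)
    simp only [smul_eq_mul] at e1 e2
    simp only [aff1, u]
    rw [ht] at e1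
    linear_combination (-z 0) * e1 - e2
  have hconn := first_conn hf (r t)
  have hU : IsOpen {z : Fin (m + 2) → ℂ | z 1 ≠ t} :=
    isOpen_ne_fun (continuous_apply 1) continuous_const
  have hV : IsOpen {z : Fin (m + 2) → ℂ | u z ≠ 0} := isOpen_ne_fun hu continuous_const
  have hpre := hconn _ _ hU hV (by
    intro z _
    by_cases hz : z 1 = t
    · right
      simp only [Set.mem_ofPred_eq, u, hz, dslope_same, hq', mul_zero, zero_add]
      exact hr'
    · left; exact hz) (by
    refine ⟨pt2 m ((r t - r s) / q s) s, ?_, ?_⟩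
    · simp only [Set.mem_ofPred_eq, aff1, pt2_0, pt2_1]
      field_simp; ring
    · simp only [Set.mem_ofPred_eq, pt2_1]
      rintro rfl
      exact hs ht) (by
    refine ⟨pt2 m 0 t, ?_, ?_⟩
    · simp [aff1, pt2_0, pt2_1]
    · simp only [Set.mem_ofPred_eq, u, pt2_0, pt2_1, dslope_same, zero_mul, zero_add]
      exact hr')
  obtain ⟨z, hz1, hz2, hz3⟩ := hpre
  have h := hfac z
  simp only [Set.mem_ofPred_eq] at hz1 hz2 hz3
  rw [hz1, sub_self] at h
  rcases mul_eq_zero.1 h.symm with h | h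
  · exact hz2 (sub_eq_zero.1 h)
  · exact hz3 h

/-- if `Q` has no zeros then `z₀ Q + R` is the first component of an automorphism -/
theorem is_first {m : ℕ} {Q R : (Fin m → ℂ) → ℂ} (hQ : Differentiable ℂ Q)
    (hR : Differentiable ℂ R) (h0 : ∀ y, Q y ≠ 0) : FirstComp (aff Q R) := by
  let F : (Fin (m + 1) → ℂ) → (Fin (m + 1) → ℂ) := fun z => Fin.cons (aff Q R z) (Fin.tail z)
  let G : (Fin (m + 1) → ℂ) → (Fin (m + 1) → ℂ) := fun w => pt Q R (w 0) (Fin.tail w)
  have hGF : ∀ z, G (F z) = z := by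
    intro z
    have : (aff Q R z - R (Fin.tail z)) / Q (Fin.tail z) = z 0 := by
      rw [aff]; have := h0 (Fin.tail z); field_simp; ring
    simp only [F, G, Fin.cons_zero, Fin.tail_cons]
    rw [pt, this, Fin.cons_self_tail]
  have hFG : ∀ w, F (G w) = w := by
    intro w
    change (Fin.cons (aff Q R (pt Q R (w 0) (Fin.tail w))) (Fin.tail (pt Q R (w 0) (Fin.tail w))) :
      Fin (m + 1) → ℂ) = w
    rw [aff_pt _ (h0 _)]
    simp only [pt, Fin.tail_cons]
    exact Fin.cons_self_tail w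
  refine ⟨F, ⟨?_, Function.LeftInverse.injective hGF, fun w => ⟨G w, hFG w⟩⟩,
    fun z => by simp [F]⟩
  intro z
  exact diffAt_cons ((aff_diff hQ hR) z) ((diff_tail m) z)

end Pool.Agent.H44.LA
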