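import Mathlib
import Pool.Agent.H44.LA.Holo

set_option autoImplicit false

open Filter Topology Metric

namespace Pool.Agent.H44.LA

/-- an entire function of linear growth is affine -/
lemma affine_of_growth {h : ℂ → ℂ} (hh : Differentiable ℂ h) {A B : ℝ} (hA : 0 ≤ A) (hB : 0 ≤ B)
    (hb : ∀ s, ‖h s‖ ≤ A + B * ‖s‖) : ∃ b : ℂ, ∀ s, h s = h 0 + s * b := by
  have hd : Differentiable ℂ (deriv h) := by
    have := (hh.differentiableOn (s := Set.univ)).deriv isOpen_univ
    exact differentiableOn_univ.1 this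
  have hbd : ∀ s, ‖deriv h s‖ ≤ A + 2 * B := by
    intro s
    have hR : 0 < ‖s‖ + 1 := by positivity
    have h1 := Complex.norm_deriv_le_of_forall_mem_sphere_norm_le (c := s) (f := h)
      (C := A + B * (2 * ‖s‖ + 1)) hR hh.diffContOnCl (by
        intro z hz
        rw [mem_sphere_iff_norm] at hz
        refine (hb z).trans ?_
        have : ‖z‖ ≤ 2 * ‖s‖ + 1 := by
          have := norm_add_le (z - s) s
          rw [sub_add_cancel, hz] at this
          linarith
        gcongr)
    refine h1.trans ?_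
    rw [div_le_iff₀ hR]
    nlinarith [norm_nonneg s, mul_nonneg hA (norm_nonneg s)]
  have hconst : ∀ s, deriv h s = deriv h 0 := by
    intro s
    apply hd.apply_eq_apply_of_bounded
    rw [isBounded_iff_forall_norm_le]
    refine ⟨A + 2 * B, ?_⟩
    rintro _ ⟨t, rfl⟩
    exact hbd t
  refine ⟨deriv h 0, fun s => ?_⟩
  have h2 : ∀ t, HasDerivAt (fun t => h t - t * deriv h 0) 0 t := by
    intro t
    have h3 : HasDerivAt (fun t => h t - t * deriv h 0) (deriv h t - 1 * deriv h 0) t :=
      (hh t).hasDerivAt.sub ((hasDerivAt_id t).mul_const (deriv h 0))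
    rw [hconst t, one_mul, sub_self] at h3
    exact h3
  have h4 := is_const_of_deriv_eq_zero (f := fun t => h t - t * deriv h 0)
    (fun t => (h2 t).differentiableAt) (fun t => (h2 t).deriv) s 0
  simp only [zero_mul, sub_zero] at h4
  linear_combination h4

/-- a continuous function that is holomorphic on every complex line is holomorphic -/
theorem gateaux {E : Type} [NormedAddCommGroup E] [NormedSpace ℂ E] {q : E → ℂ}
    (hc : Continuous q) (hg : ∀ x v : E, Differentiable ℂ (fun t : ℂ => q (x + t • v))) :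
    Differentiable ℂ q := by
  intro x
  obtain ⟨r, hr, hM⟩ : ∃ r > 0, ∀ y ∈ ball x r, ‖q y‖ ≤ ‖q x‖ + 1 := by
    have h1 : ∀ᶠ y in 𝓝 x, ‖q y‖ < ‖q x‖ + 1 :=
      (hc.norm.tendsto x).eventually_lt_const (by linarith)
    obtain ⟨r, hr, h⟩ := Metric.eventually_nhds_iff_ball.1 h1
    exact ⟨r, hr, fun y hy => (h y hy).le⟩
  set M := ‖q x‖ + 1 with hMdef
  have hM0 : 0 < M := by positivity
  let φ : E → ℂ := fun v => deriv (fun t : ℂ => q (x + t • v)) 0
  have hball : ∀ (v : E) (R : ℝ), R * ‖v‖ ≤ r → ∀ t : ℂ, ‖t‖ < R ∨ (‖t‖ ≤ R ∧ R * ‖v‖ < r) →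
      v ≠ 0 → ‖q (x + t • v)‖ ≤ M := by
    intro v R hR t ht hv
    have hvp : 0 < ‖v‖ := norm_pos_iff.2 hv
    apply hM
    rw [mem_ball_iff_norm, add_sub_cancel_left, norm_smul]
    rcases ht with ht | ⟨ht, ht2⟩
    · exact (mul_lt_mul_of_pos_right ht hvp).trans_le hR
    · exact (mul_le_mul_of_nonneg_right ht hvp.le).trans_lt ht2
  have hT : ∀ v : E, ‖v‖ < r → ‖q (x + v) - q x - φ v‖ ≤ 4 * M * (‖v‖ / r) ^ 2 := by
    intro v hv
    by_cases hv0 : v = 0
    · subst hv0
      simp [φ]
    have hvp : 0 < ‖v‖ := norm_pos_iff.2 hv0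
    have hR : 0 < r / ‖v‖ := by positivity
    have h1 := Osg.norm_sub_sub_fderiv_le (f := fun t : ℂ => q (x + t • v)) (c := 0)
      (R := r / ‖v‖) (M := M) hR (hg x v).differentiableOn (fun t ht => by
        rw [mem_ball_zero_iff] at ht
        exact hball v (r / ‖v‖) (by field_simp; exact le_refl _) t (Or.inl ht) hv0) (w := 1) (by
        rw [mem_ball_zero_iff, norm_one]
        exact (one_lt_div hvp).2 hv)
    simp only [one_smul, zero_smul, add_zero, sub_zero, norm_one] at h1
    rw [one_div_div] at h1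
    have h2 : fderiv ℂ (fun t : ℂ => q (x + t • v)) 0 1 = φ v := rfl
    rw [h2] at h1
    exact h1
  have hB : ∀ v : E, ‖φ v‖ ≤ 2 * M / r * ‖v‖ := by
    intro v
    by_cases hv0 : v = 0
    · subst hv0
      simp [φ]
    have hvp : 0 < ‖v‖ := norm_pos_iff.2 hv0
    have hR : 0 < r / (2 * ‖v‖) := by positivity
    have hRv : r / (2 * ‖v‖) * ‖v‖ = r / 2 := by field_simp
    have h1 := Complex.norm_deriv_le_of_forall_mem_sphere_norm_le (c := 0)
      (f := fun t : ℂ => q (x + t • v)) (C := M) hR (hg x v).diffContOnCl (by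
        intro z hz
        rw [mem_sphere_zero_iff_norm] at hz
        exact hball v (r / (2 * ‖v‖)) (by rw [hRv]; linarith) z
          (Or.inr ⟨hz.le, by rw [hRv]; linarith⟩) hv0)
    refine h1.trans (le_of_eq ?_)
    field_simp
  have hhom : ∀ (c : ℂ) (v : E), φ (c • v) = c * φ v := by
    intro c v
    have h1 : HasDerivAt (fun t : ℂ => q (x + t • v)) (φ v) (0 * c) := by
      rw [zero_mul]; exact ((hg x v) 0).hasDerivAt
    have h2 := h1.comp (0 : ℂ) (hasDerivAt_mul_const c)
    have h3 : ((fun t : ℂ => q (x + t • v)) ∘ fun x : ℂ => x * c) =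
        fun t : ℂ => q (x + t • (c • v)) := by
      funext t
      simp [smul_smul]
    rw [h3] at h2
    have := h2.deriv
    rw [mul_comm] at this
    exact this
  have hent : ∀ v w : E, Differentiable ℂ (fun s : ℂ => φ (v + s • w)) := by
    intro v w s₀
    let F : ℕ → ℂ → ℂ := fun n s =>
      ((n : ℂ) + 1) * (q (x + ((n : ℂ) + 1)⁻¹ • (v + s • w)) - q x)
    have hF : ∀ n, Differentiable ℂ (F n) := by
      intro n
      have h1 : Differentiable ℂ (fun s : ℂ => q ((x + ((n : ℂ) + 1)⁻¹ • v) +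
          (((n : ℂ) + 1)⁻¹ * s) • w)) :=
        (hg (x + ((n : ℂ) + 1)⁻¹ • v) w).comp (differentiable_id.const_mul _)
      have h2 : F n = fun s : ℂ => ((n : ℂ) + 1) * (q ((x + ((n : ℂ) + 1)⁻¹ • v) +
          (((n : ℂ) + 1)⁻¹ * s) • w) - q x) := by
        funext s
        simp only [F, smul_add, smul_smul, add_assoc]
      rw [h2]
      exact (h1.sub_const _).const_mul _
    set ρ := 2 * (‖s₀‖ + 1) with hρ
    have hρ0 : 0 < ρ := by positivity
    set U := ‖v‖ + ρ * ‖w‖ + 1 with hU
    have hU0 : 0 < U := by positivity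
    have hlim : TendstoUniformlyOn F (fun s : ℂ => φ (v + s • w)) atTop (ball 0 ρ) := by
      rw [Metric.tendstoUniformlyOn_iff]
      intro ε hε
      obtain ⟨N, hN⟩ := exists_nat_gt (max (U / r) (4 * M * U ^ 2 / r ^ 2 / ε))
      filter_upwards [eventually_ge_atTop N] with n hn s hs
      have hnN : (N : ℝ) ≤ n := by exact_mod_cast hn
      have hn1 : (0 : ℝ) < (n : ℝ) + 1 := by positivity
      have hN1 : U / r < (n : ℝ) + 1 := by
        have := (le_max_left (U / r) (4 * M * U ^ 2 / r ^ 2 / ε)).trans_lt hN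
        linarith
      have hN2 : 4 * M * U ^ 2 / r ^ 2 / ε < (n : ℝ) + 1 := by
        have := (le_max_right (U / r) (4 * M * U ^ 2 / r ^ 2 / ε)).trans_lt hN
        linarith
      have hu : ‖v + s • w‖ ≤ U := by
        rw [mem_ball_zero_iff] at hs
        have := norm_add_le v (s • w)
        rw [norm_smul] at this
        have h3 : ‖s‖ * ‖w‖ ≤ ρ * ‖w‖ := mul_le_mul_of_nonneg_right hs.le (norm_nonneg _)
        linarith
      have hnc : ‖((n : ℂ) + 1)‖ = (n : ℝ) + 1 := by
        have : ((n : ℂ) + 1) = (((n : ℝ) + 1 : ℝ) : ℂ) := by push_cast; rfl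
        rw [this, Complex.norm_real, Real.norm_of_nonneg hn1.le]
      have hnz : ((n : ℂ) + 1) ≠ 0 := by
        intro h0
        rw [h0, norm_zero] at hnc
        linarith
      have hsm : ‖((n : ℂ) + 1)⁻¹ • (v + s • w)‖ ≤ U / ((n : ℝ) + 1) := by
        rw [norm_smul, norm_inv, hnc, div_eq_inv_mul]
        gcongr
      have hlt : U / ((n : ℝ) + 1) < r := by
        rw [div_lt_iff₀ hn1]
        rw [div_lt_iff₀ hr] at hN1
        linarith
      have h4 := hT _ (hsm.trans_lt hlt)
      rw [hhom] at h4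
      have h5 : F n s - φ (v + s • w) = ((n : ℂ) + 1) *
          (q (x + ((n : ℂ) + 1)⁻¹ • (v + s • w)) - q x - ((n : ℂ) + 1)⁻¹ * φ (v + s • w)) := by
        simp only [F]
        field_simp
      rw [dist_comm, dist_eq_norm, h5, norm_mul, hnc]
      have h6 : (‖((n : ℂ) + 1)⁻¹ • (v + s • w)‖ / r) ^ 2 ≤ (U / ((n : ℝ) + 1) / r) ^ 2 := by
        gcongr
      calc _ ≤ ((n : ℝ) + 1) * (4 * M * (U / ((n : ℝ) + 1) / r) ^ 2) := by
            apply mul_le_mul_of_nonneg_left _ hn1.le
            exact h4.trans (mul_le_mul_of_nonneg_left h6 (by positivity))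
        _ = (4 * M * U ^ 2 / r ^ 2) / ((n : ℝ) + 1) := by
            field_simp
        _ < ε := by
            rw [div_lt_iff₀ hn1]
            rw [div_lt_iff₀ hε] at hN2
            linarith
    have h7 := Osg.differentiableOn_of_uniform_limit (fun n => (hF n).differentiableOn) hlim
    refine h7.differentiableAt (isOpen_ball.mem_nhds ?_)
    rw [mem_ball_zero_iff, hρ]
    linarith
  have haff : ∀ v w : E, ∃ b : ℂ, ∀ s : ℂ, φ (v + s • w) = φ v + s * b := by
    intro v w
    obtain ⟨b, hb⟩ := affine_of_growth (hent v w) (A := 2 * M / r * ‖v‖) (B := 2 * M / r * ‖w‖)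
      (by positivity) (by positivity) (by
        intro s
        refine (hB _).trans ?_
        have h1 := norm_add_le v (s • w)
        rw [norm_smul] at h1
        calc _ ≤ 2 * M / r * (‖v‖ + ‖s‖ * ‖w‖) := by gcongr
          _ = _ := by ring)
    refine ⟨b, fun s => ?_⟩
    have := hb s
    simpa using this
  have hadd : ∀ v w : E, φ (v + w) = φ v + φ w := by
    intro v w
    obtain ⟨b, hb⟩ := haff v w
    obtain ⟨a, ha⟩ := haff w v
    have h1 := hb 1
    have h2 := hb (-1)
    have h3 := ha 1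
    have h4 := ha (-1)
    have h5 := hhom (-1) (w + (-1 : ℂ) • v)
    have h6 : (-1 : ℂ) • (w + (-1 : ℂ) • v) = v + (-1 : ℂ) • w := by
      simp [smul_add, add_comm]
    rw [h6] at h5
    have h7 : φ (v + (1 : ℂ) • w) = φ (w + (1 : ℂ) • v) := by simp [add_comm]
    have h8 : φ (v + w) = φ (v + (1 : ℂ) • w) := by simp
    rw [h8]
    linear_combination (1 / 2 : ℂ) * h1 + (1 / 2 : ℂ) * h3 + (1 / 2 : ℂ) * h7 + (1 / 2 : ℂ) * h2 +
      (1 / 2 : ℂ) * h4 - (1 / 2 : ℂ) * h5
  let L : E →L[ℂ] ℂ := LinearMap.mkContinuous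
    { toFun := φ, map_add' := hadd, map_smul' := hhom } (2 * M / r) hB
  have hL : HasFDerivAt q L x := by
    rw [hasFDerivAt_iff_isLittleO_nhds_zero, Asymptotics.isLittleO_iff]
    intro ε hε
    have h1 : ∀ᶠ v : E in 𝓝 0, ‖v‖ < min r (ε * r ^ 2 / (4 * M)) := by
      have : (0 : ℝ) < min r (ε * r ^ 2 / (4 * M)) := lt_min hr (by positivity)
      have h2 := Metric.ball_mem_nhds (0 : E) this
      filter_upwards [h2] with v hv
      rwa [mem_ball_zero_iff] at hv
    filter_upwards [h1] with v hv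
    have hv1 := hv.trans_le (min_le_left _ _)
    have hv2 := hv.trans_le (min_le_right _ _)
    refine (hT v hv1).trans ?_
    rw [lt_div_iff₀ (by positivity)] at hv2
    rw [div_pow, ← mul_div_assoc, div_le_iff₀ (by positivity)]
    nlinarith [norm_nonneg v]
  exact hL.differentiableAt

end Pool.Agent.H44.LA
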