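import Mathlib
import Pool.Agent.H44.LA.Basic

set_option autoImplicit false

open Filter Topology

namespace Pool.Agent.H44.LA

/-! ### Square roots -/

/-- the principal square root -/
noncomputable def sqr (w : ℂ) : ℂ := w ^ ((2 : ℕ) : ℂ)⁻¹

lemma sqr_sq (w : ℂ) : sqr w ^ 2 = w := Complex.cpow_nat_inv_pow w two_ne_zero

lemma eq_or_neg {s w : ℂ} (h : s ^ 2 = w) : s = sqr w ∨ s = -sqr w := by
  have h2 : s ^ 2 = sqr w ^ 2 := by rw [sqr_sq, h]
  exact sq_eq_sq_iff_eq_or_eq_neg.1 h2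

lemma tendsto_sqr {g : ℂ → ℂ} {y : ℂ} (hg : ContinuousAt g y) (h0 : g y = 0) :
    Tendsto (fun x => sqr (g x)) (𝓝 y) (𝓝 0) := by
  rw [tendsto_zero_iff_norm_tendsto_zero]
  have h1 : ∀ x, ‖sqr (g x)‖ = Real.sqrt ‖g x‖ := by
    intro x
    rw [← Real.sqrt_sq (norm_nonneg (sqr (g x))), ← norm_pow, sqr_sq]
  simp only [h1]
  have h2 : ContinuousAt (fun x => Real.sqrt ‖g x‖) y := hg.norm.sqrt
  have h3 := h2.tendsto
  simpa [h0] using h3

lemma branch {g : ℂ → ℂ} {y s₀ : ℂ} (hg : DifferentiableAt ℂ g y) (hs : s₀ ^ 2 = g y)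
    (h0 : g y ≠ 0) : ∃ s : ℂ → ℂ, s y = s₀ ∧ DifferentiableAt ℂ s y ∧ ∀ x, s x ^ 2 = g x := by
  refine ⟨fun x => s₀ * sqr (g x / g y), ?_, ?_, ?_⟩
  · simp [sqr, div_self h0]
  · have h1 : DifferentiableAt ℂ (fun x => g x / g y) y := hg.div_const _
    refine (differentiableAt_const _).mul ?_
    refine h1.cpow (differentiableAt_const _) ?_
    rw [div_self h0]
    exact Complex.one_mem_slitPlane
  · intro x
    rw [mul_pow, sqr_sq, hs]
    field_simp

/-! ### Extension across the zeros of an entire function -/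

lemma extend {q u w : ℂ → ℂ} (hq : Differentiable ℂ q) {s : ℂ} (hs : q s ≠ 0)
    (hu : ∀ t, q t ≠ 0 → DifferentiableAt ℂ u t) (hw : Continuous w)
    (hb : ∀ t, q t ≠ 0 → u t ^ 2 = w t) :
    ∃ v : ℂ → ℂ, Differentiable ℂ v ∧ ∀ t, q t ≠ 0 → v t = u t := by
  set v : ℂ → ℂ := fun x => limUnder (𝓝[≠] x) u with hv
  have hvu : ∀ x, q x ≠ 0 → v x = u x := fun x hx =>
    ((hu x hx).continuousAt.tendsto.mono_left nhdsWithin_le_nhds).limUnder_eq
  refine ⟨v, ?_, hvu⟩
  intro x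
  have h := ev_ne hq hs x
  rw [eventually_nhdsWithin_iff] at h
  have hbd : ∀ᶠ y in 𝓝 x, ‖w y‖ < ‖w x‖ + 1 :=
    hw.norm.continuousAt.eventually_lt continuousAt_const (by simp)
  obtain ⟨U, hU, hUo, hxU⟩ := eventually_nhds_iff.1 (h.and hbd)
  have hd : DifferentiableOn ℂ u (U \ {x}) := fun y hy =>
    (hu y ((hU y hy.1).1 hy.2)).differentiableWithinAt
  have hb : BddAbove (norm ∘ u '' (U \ {x})) := by
    refine ⟨Real.sqrt (‖w x‖ + 1), ?_⟩
    rintro _ ⟨y, hy, rfl⟩
    have h1 := hb y ((hU y hy.1).1 hy.2)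
    have h2 := (hU y hy.1).2
    rw [← h1, norm_pow] at h2
    exact Real.le_sqrt_of_sq_le h2.le
  have h2 := Complex.differentiableOn_update_limUnder_of_bddAbove (hUo.mem_nhds hxU) hd hb
  have h3 := (h2 x hxU).differentiableAt (hUo.mem_nhds hxU)
  refine h3.congr_of_eventuallyEq ?_
  filter_upwards [hUo.mem_nhds hxU] with y hy
  by_cases hyx : y = x
  · subst hyx; simp [hv]
  · rw [Function.update_of_ne hyx, hvu y ((hU y hy).1 hyx)]

/-- two continuous functions that agree off the zeros of a nonzero entire function are equal -/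
lemma eq_of_off {q a b : ℂ → ℂ} (hq : Differentiable ℂ q) {s : ℂ} (hs : q s ≠ 0)
    (ha : Continuous a) (hb : Continuous b) (h : ∀ t, q t ≠ 0 → a t = b t) (t : ℂ) :
    a t = b t := by
  have h1 : Tendsto a (𝓝[≠] t) (𝓝 (a t)) := ha.continuousAt.tendsto.mono_left nhdsWithin_le_nhds
  have h2 : Tendsto b (𝓝[≠] t) (𝓝 (b t)) := hb.continuousAt.tendsto.mono_left nhdsWithin_le_nhds
  exact tendsto_nhds_unique_of_eventuallyEq h1 h2 (by
    filter_upwards [ev_ne hq hs t] with x hx using h x hx)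

/-! ### Functions of degree two in the first variable on `ℂ²` -/

/-- `z ↦ A(z₁) z₀² + B(z₁) z₀ + C(z₁)` -/
def quad (A B C : ℂ → ℂ) (z : Fin 2 → ℂ) : ℂ := A (z 1) * z 0 ^ 2 + B (z 1) * z 0 + C (z 1)

/-- the discriminant of `quad A B C (·, y) - c` -/
def disc (A B C : ℂ → ℂ) (c y : ℂ) : ℂ := B y ^ 2 - 4 * A y * (C y - c)

/-- the value of `f` at the root belonging to the square root `σ` of the discriminant -/
noncomputable def evr (A B : ℂ → ℂ) (f : (Fin 2 → ℂ) → ℂ) (y σ : ℂ) : ℂ :=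
  f ![(-B y + σ) / (2 * A y), y]

lemma quad_root {A B C : ℂ → ℂ} {c y σ : ℂ} (hA : A y ≠ 0) (hσ : σ ^ 2 = disc A B C c y) :
    quad A B C ![(-B y + σ) / (2 * A y), y] = c := by
  simp only [quad, Matrix.cons_val_zero, Matrix.cons_val_one]
  rw [disc] at hσ
  field_simp
  linear_combination hσ

lemma diff_vec {f : (Fin 2 → ℂ) → ℂ} (hf : Differentiable ℂ f) {a b : ℂ → ℂ} {t : ℂ}
    (ha : DifferentiableAt ℂ a t) (hb : DifferentiableAt ℂ b t) :
    DifferentiableAt ℂ (fun x => f ![a x, b x]) t := by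
  refine (hf _).comp t ?_
  rw [differentiableAt_pi]
  intro i
  fin_cases i
  · simpa using ha
  · simpa using hb

section

variable {A B C : ℂ → ℂ} (hA : Differentiable ℂ A) (hB : Differentiable ℂ B)
  (hC : Differentiable ℂ C) {f : (Fin 2 → ℂ) → ℂ} (hf : Differentiable ℂ f)

include hA hB hf in
lemma evr_diff {s : ℂ → ℂ} {y : ℂ} (hy : A y ≠ 0) (hs : DifferentiableAt ℂ s y) :
    DifferentiableAt ℂ (fun x => evr A B f x (s x)) y := by
  refine diff_vec hf ?_ differentiableAt_id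
  exact ((hB y).neg.add hs).div ((differentiableAt_const _).mul (hA y))
    (mul_ne_zero two_ne_zero hy)

include hA hB hC in
lemma disc_diff (c : ℂ) : Differentiable ℂ (fun y => disc A B C c y) := by
  unfold disc
  exact (hB.pow 2).sub (((differentiable_const _).mul hA).mul (hC.sub (differentiable_const _)))

include hA hB hC hf in
/-- symmetric functions of the values of `f` at the two points of a fibre above `y` do not depend
on `y` -/
lemma sym_const (hp : ∀ c, ∃ M : ℝ, ∀ z, quad A B C z = c → ‖f z‖ ≤ M) {Ψ : ℂ → ℂ → ℂ}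
    (hΨ : Differentiable ℂ (fun p : ℂ × ℂ => Ψ p.1 p.2)) (hsym : ∀ a b, Ψ a b = Ψ b a)
    (c : ℂ) {y y' : ℂ} (h1 : A y ≠ 0) (h2 : disc A B C c y ≠ 0) (h1' : A y' ≠ 0)
    (h2' : disc A B C c y' ≠ 0) :
    Ψ (evr A B f y (sqr (disc A B C c y))) (evr A B f y (-sqr (disc A B C c y))) =
      Ψ (evr A B f y' (sqr (disc A B C c y'))) (evr A B f y' (-sqr (disc A B C c y'))) := by
  have hex : ∀ x σ, A x ≠ 0 → σ ^ 2 = disc A B C c x →
      quad A B C ![(-B x + σ) / (2 * A x), x] = c := fun x σ hx hσ => quad_root hx hσ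
  obtain ⟨M, hM⟩ := hp c
  have hb : ∀ x σ, A x ≠ 0 → σ ^ 2 = disc A B C c x → ‖evr A B f x σ‖ ≤ M :=
    fun x σ hx hσ => hM _ (hex x σ hx hσ)
  obtain ⟨N, hN⟩ := ((isCompact_closedBall (0 : ℂ) M).prod
    (isCompact_closedBall (0 : ℂ) M)).exists_bound_of_continuousOn hΨ.continuous.continuousOn
  refine liouville_off (q := fun x => A x * disc A B C c x)
    (u := fun x => Ψ (evr A B f x (sqr (disc A B C c x))) (evr A B f x (-sqr (disc A B C c x))))
    (hA.mul (disc_diff hA hB hC c)) (M := N) ?_ ?_ (mul_ne_zero h1 h2) (mul_ne_zero h1' h2')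
  · intro x hx
    have hx1 := left_ne_zero_of_mul hx
    have hx2 := right_ne_zero_of_mul hx
    obtain ⟨s, hs0, hsd, hs⟩ := branch (s₀ := sqr (disc A B C c x))
      (disc_diff hA hB hC c x) (sqr_sq _) hx2
    have e : (fun x => Ψ (evr A B f x (sqr (disc A B C c x)))
        (evr A B f x (-sqr (disc A B C c x)))) =
        fun x => Ψ (evr A B f x (s x)) (evr A B f x (-s x)) := by
      funext t
      rcases eq_or_neg (hs t) with h | h
      · rw [h]
      · rw [h, neg_neg, hsym]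
    rw [e]
    exact (hΨ (evr A B f x (s x), evr A B f x (-s x))).comp x
      ((evr_diff hA hB hf hx1 hsd).prodMk (evr_diff hA hB hf hx1 hsd.neg))
  · intro x hx
    have hx1 := left_ne_zero_of_mul hx
    refine hN (_, _) ⟨?_, ?_⟩
    · rw [mem_closedBall_zero_iff]
      exact hb x _ hx1 (sqr_sq _)
    · rw [mem_closedBall_zero_iff]
      exact hb x _ hx1 (by rw [neg_sq, sqr_sq])

end

end Pool.Agent.H44.LA
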