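import Mathlib
import Pool.Agent.H44.LA.Quad

set_option autoImplicit false

open Filter Topology

namespace Pool.Agent.H44.LA

/-! ### Roots -/

/-- the principal `d`-th root -/
noncomputable def rt (d : ℕ) (w : ℂ) : ℂ := w ^ ((d : ℂ)⁻¹)

lemma rt_pow {d : ℕ} (hd : d ≠ 0) (w : ℂ) : rt d w ^ d = w := Complex.cpow_nat_inv_pow w hd

lemma tendsto_rt {d : ℕ} (hd : d ≠ 0) {g : ℂ → ℂ} {y : ℂ} (hg : ContinuousAt g y)
    (h0 : g y = 0) : Tendsto (fun x => rt d (g x)) (𝓝 y) (𝓝 0) := by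
  rw [tendsto_zero_iff_norm_tendsto_zero]
  have h1 : ∀ x, ‖rt d (g x)‖ = ‖g x‖ ^ ((d : ℝ)⁻¹) := by
    intro x
    rw [← Real.pow_rpow_inv_natCast (norm_nonneg (rt d (g x))) hd, ← norm_pow, rt_pow hd]
  simp only [h1]
  have hd' : (0 : ℝ) < (d : ℝ)⁻¹ := by positivity
  have h2 : ContinuousAt (fun x => ‖g x‖ ^ ((d : ℝ)⁻¹)) y :=
    hg.norm.rpow_const (Or.inr hd'.le)
  have h3 := h2.tendsto
  rwa [h0, norm_zero, Real.zero_rpow hd'.ne'] at h3

lemma rt_zero {d : ℕ} (hd : d ≠ 0) : rt d 0 = 0 := by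
  have := rt_pow hd 0
  exact (pow_eq_zero_iff hd).1 this

lemma branchd {d : ℕ} (hd : d ≠ 0) {g : ℂ → ℂ} {y s₀ : ℂ} (hg : DifferentiableAt ℂ g y)
    (hs : s₀ ^ d = g y) (h0 : g y ≠ 0) :
    ∃ s : ℂ → ℂ, s y = s₀ ∧ DifferentiableAt ℂ s y ∧ ∀ x, s x ^ d = g x := by
  refine ⟨fun x => s₀ * rt d (g x / g y), ?_, ?_, ?_⟩
  · simp [rt, div_self h0]
  · have h1 : DifferentiableAt ℂ (fun x => g x / g y) y := hg.div_const _
    refine (differentiableAt_const _).mul ?_
    refine h1.cpow (differentiableAt_const _) ?_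
    rw [div_self h0]
    exact Complex.one_mem_slitPlane
  · intro x
    rw [mul_pow, rt_pow hd, hs]
    field_simp

lemma sum_shift (F : ℕ → ℂ) (d : ℕ) (hF : ∀ i, F (i + d) = F i) (j : ℕ) :
    ∑ i ∈ Finset.range d, F (i + j) = ∑ i ∈ Finset.range d, F i := by
  induction j with
  | zero => simp
  | succ j ih =>
    rw [← ih]
    have h1 := Finset.sum_range_succ (fun i => F (i + j)) d
    have h2 := Finset.sum_range_succ' (fun i => F (i + j)) d
    have h3 : F (d + j) = F (0 + j) := by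
      rw [add_comm d j, hF, zero_add]
    have h4 : ∑ i ∈ Finset.range d, F (i + (j + 1)) = ∑ i ∈ Finset.range d, F (i + 1 + j) :=
      Finset.sum_congr rfl fun i _ => by congr 1; ring
    rw [h4]
    rw [h1, h3] at h2
    exact (add_right_cancel h2).symm

/-- the point `(x, y)` of `ℂ^(m+1)` -/
def cn {m : ℕ} (x : ℂ) (y : Fin m → ℂ) : Fin (m + 1) → ℂ := Fin.cons x y

lemma cn_diff {m : ℕ} {a : ℂ → ℂ} {b : ℂ → (Fin m → ℂ)} {e : ℂ} (ha : DifferentiableAt ℂ a e)
    (hb : DifferentiableAt ℂ b e) : DifferentiableAt ℂ (fun x => cn (a x) (b x)) e :=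
  diffAt_cons ha hb

/-- the function `z ↦ z₀ ^ d Q(z₁, …) + R(z₁, …)` -/
def pw {m : ℕ} (d : ℕ) (Q R : (Fin m → ℂ) → ℂ) (z : Fin (m + 1) → ℂ) : ℂ :=
  z 0 ^ d * Q (Fin.tail z) + R (Fin.tail z)

lemma pw_cn {m : ℕ} (d : ℕ) (Q R : (Fin m → ℂ) → ℂ) (x : ℂ) (y : Fin m → ℂ) :
    pw d Q R (cn x y) = x ^ d * Q y + R y := by
  simp [pw, cn]

lemma pw_diff {m : ℕ} (d : ℕ) {Q R : (Fin m → ℂ) → ℂ} (hQ : Differentiable ℂ Q)
    (hR : Differentiable ℂ R) : Differentiable ℂ (pw d Q R) := by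
  have d0 : Differentiable ℂ (fun z : Fin (m + 1) → ℂ => z 0) := differentiable_apply 0
  exact ((d0.pow d).mul (hQ.comp (diff_tail m))).add (hR.comp (diff_tail m))

lemma pw_root {m : ℕ} {d : ℕ} {Q R : (Fin m → ℂ) → ℂ} {c x : ℂ} {y : Fin m → ℂ}
    (hy : Q y ≠ 0) (hx : x ^ d = (c - R y) / Q y) : pw d Q R (cn x y) = c := by
  rw [pw_cn, hx]; field_simp; ring

section

variable {m d : ℕ} (hd : d ≠ 0) {Q R : (Fin m → ℂ) → ℂ} (hQ : Differentiable ℂ Q)
  (hR : Differentiable ℂ R) {f : (Fin (m + 1) → ℂ) → ℂ} (hf : Differentiable ℂ f)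

include hd hQ hR hf in
/-- If `f` is bounded on the fibres and takes the same value at the points of a fibre above the
same `y`, then `f` is a function of `z₀ ^ d Q + R`. -/
lemma pow_factor (hb : ∀ c, ∃ M : ℝ, ∀ z, pw d Q R z = c → ‖f z‖ ≤ M)
    {y₀ : Fin m → ℂ} (h0 : Q y₀ ≠ 0)
    (hsame : ∀ (s s' : ℂ) (y : Fin m → ℂ), s ^ d = s' ^ d → f (cn s y) = f (cn s' y)) :
    ∃ φ : ℂ → ℂ, Differentiable ℂ φ ∧ ∀ z, f z = φ (pw d Q R z) := by
  let g : ℂ → (Fin m → ℂ) → ℂ := fun c y => (c - R y) / Q y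
  have key : ∀ (c : ℂ) (y y' : Fin m → ℂ), Q y ≠ 0 → c - R y ≠ 0 → Q y' ≠ 0 → c - R y' ≠ 0 →
      f (cn (rt d (g c y)) y) = f (cn (rt d (g c y')) y') := by
    intro c y y' a1 a2 a3 a4
    obtain ⟨M, hM⟩ := hb c
    let l : ℂ → (Fin m → ℂ) := fun t => y + t • (y' - y)
    have hl : Differentiable ℂ l := fun t => (differentiableAt_id.smul_const _).const_add _
    have hgd : ∀ t, Q (l t) ≠ 0 → DifferentiableAt ℂ (fun t => g c (l t)) t := fun t ht =>
      ((differentiableAt_const c).sub ((hR.comp hl) t)).div ((hQ.comp hl) t) ht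
    have h := liouville_off (q := fun t => Q (l t) * (c - R (l t)))
      (u := fun t => f (cn (rt d (g c (l t))) (l t)))
      ((hQ.comp hl).mul ((differentiable_const c).sub (hR.comp hl))) (fun t ht => by
        have ht1 := left_ne_zero_of_mul ht
        have ht2 := right_ne_zero_of_mul ht
        obtain ⟨s, hs0, hsd, hs⟩ := branchd hd (s₀ := rt d (g c (l t))) (hgd t ht1)
          (rt_pow hd _) (div_ne_zero ht2 ht1)
        have e : (fun t => f (cn (rt d (g c (l t))) (l t))) = fun t => f (cn (s t) (l t)) := by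
          funext x
          exact hsame _ _ _ (by rw [rt_pow hd, hs])
        rw [e]
        exact (hf _).comp t (cn_diff hsd (hl t)))
      (M := M) (fun t ht => hM _ (pw_root (left_ne_zero_of_mul ht) (rt_pow hd _)))
      (s := 0) (t := 1)
      (by simpa [l] using And.intro a1 a2) (by simpa [l] using And.intro a3 a4)
    simpa [l] using h
  let G : ℂ → ℂ := fun c => f (cn (rt d (g c y₀)) y₀)
  have hg0 : Differentiable ℂ (fun c => g c y₀) := by
    intro c
    exact (differentiableAt_id.sub (differentiableAt_const _)).div_const _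
  have hfc : Differentiable ℂ (fun x : ℂ => f (cn x y₀)) := fun x =>
    (hf _).comp x (cn_diff differentiableAt_id (differentiableAt_const _))
  have hG1 : ∀ c, c - R y₀ ≠ 0 → DifferentiableAt ℂ G c := by
    intro c hc
    obtain ⟨s, hs0, hsd, hs⟩ := branchd hd (g := fun c => g c y₀) (s₀ := rt d (g c y₀)) (hg0 c)
      (rt_pow hd _) (div_ne_zero hc h0)
    have e : G = fun c => f (cn (s c) y₀) := by
      funext c'
      exact hsame _ _ _ (by rw [rt_pow hd, hs])
    rw [e]
    exact (hfc (s c)).comp c hsd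
  have hG : Differentiable ℂ G := by
    intro c
    by_cases hc : c - R y₀ = 0
    · have hgc : g c y₀ = 0 := by simp only [g, hc, zero_div]
      have hcont : ContinuousAt G c := by
        have h1 : ContinuousAt (fun c => rt d (g c y₀)) c := by
          have h2 := tendsto_rt hd (g := fun c => g c y₀) (hg0 c).continuousAt hgc
          rw [ContinuousAt, hgc, rt_zero hd]
          exact h2
        exact ContinuousAt.comp (g := fun x => f (cn x y₀)) hfc.continuous.continuousAt h1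
      refine (Complex.analyticAt_of_differentiable_on_punctured_nhds_of_continuousAt ?_
        hcont).differentiableAt
      rw [eventually_nhdsWithin_iff]
      refine Eventually.of_forall fun c' hc' => hG1 c' ?_
      intro h
      apply hc'
      rw [sub_eq_zero.1 hc]
      exact sub_eq_zero.1 h
    · exact hG1 c hc
  have hgen : ∀ z : Fin (m + 1) → ℂ, Q (Fin.tail z) * z 0 * (pw d Q R z - R y₀) ≠ 0 →
      f z = G (pw d Q R z) := by
    intro z hz
    have hz3 := right_ne_zero_of_mul hz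
    have hz12 := left_ne_zero_of_mul hz
    have hz1 := left_ne_zero_of_mul hz12
    have hz2 := right_ne_zero_of_mul hz12
    have hzc : cn (z 0) (Fin.tail z) = z := Fin.cons_self_tail z
    have e1 : pw d Q R z - R (Fin.tail z) = z 0 ^ d * Q (Fin.tail z) := by simp [pw]
    have e2 : g (pw d Q R z) (Fin.tail z) = z 0 ^ d := by
      simp only [g]
      rw [e1]
      field_simp
    have h1 := key (pw d Q R z) (Fin.tail z) y₀ hz1
      (by rw [e1]; exact mul_ne_zero (pow_ne_zero d hz2) hz1) h0 hz3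
    rw [← hzc, hsame (z 0) (rt d (g (pw d Q R z) (Fin.tail z))) _ (by rw [rt_pow hd, e2]), h1,
      hzc]
  refine ⟨G, hG, fun z => ?_⟩
  have hpd := pw_diff d hQ hR
  have d0 : Differentiable ℂ (fun z : Fin (m + 1) → ℂ => z 0) := differentiable_apply 0
  have hE : Differentiable ℂ (fun z : Fin (m + 1) → ℂ =>
      Q (Fin.tail z) * z 0 * (pw d Q R z - R y₀)) :=
    ((hQ.comp (diff_tail m)).mul d0).mul (hpd.sub (differentiable_const _))
  let p : Fin (m + 1) → ℂ := cn 1 y₀
  have hEp : Q (Fin.tail p) * p 0 * (pw d Q R p - R y₀) ≠ 0 := by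
    simp only [p, pw_cn]
    simp only [cn, Fin.tail_cons, Fin.cons_zero, one_pow, mul_one, one_mul, add_sub_cancel_right]
    exact mul_ne_zero h0 h0
  let w : ℂ → (Fin (m + 1) → ℂ) := fun t => z + t • (p - z)
  have hw : Differentiable ℂ w := fun t => (differentiableAt_id.smul_const _).const_add _
  have hw0 : w 0 = z := by simp [w]
  have hw1 : w 1 = p := by simp [w]
  have hevn := ev_ne (hE.comp hw) (s := 1) (by
    simp only [Function.comp, hw1]; exact hEp) 0
  have h1 : Tendsto (fun t => f (w t)) (𝓝[≠] 0) (𝓝 (f (w 0))) :=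
    ((hf.comp hw).continuous.tendsto 0).mono_left nhdsWithin_le_nhds
  have h2 : Tendsto (fun t => G (pw d Q R (w t))) (𝓝[≠] 0) (𝓝 (G (pw d Q R (w 0)))) :=
    ((hG.comp (hpd.comp hw)).continuous.tendsto 0).mono_left nhdsWithin_le_nhds
  have h3 := tendsto_nhds_unique_of_eventuallyEq h1 h2 (by
    filter_upwards [hevn] with t ht
    exact hgen _ ht)
  rwa [hw0] at h3

end

end Pool.Agent.H44.LA
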