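import Mathlib
import Pool.Agent.H44.LA.Pow

set_option autoImplicit false

open Filter Topology

namespace Pool.Agent.H44.LA

/-- the sum of the values `P (f (x', y))` over the points `x'` with `x' ^ d = x ^ d` -/
noncomputable def ps {m : ℕ} (d : ℕ) (ζ : ℂ) (P : Polynomial ℂ) (f : (Fin (m + 1) → ℂ) → ℂ) (x : ℂ)
    (y : Fin m → ℂ) : ℂ := ∑ i ∈ Finset.range d, P.eval (f (cn (ζ ^ i * x) y))

lemma root_eq {d : ℕ} (hd : d ≠ 0) {ζ : ℂ} (hζ : IsPrimitiveRoot ζ d) {s t : ℂ}
    (h : s ^ d = t ^ d) : ∃ j : ℕ, s = ζ ^ j * t := by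
  by_cases ht : t = 0
  · subst ht
    refine ⟨0, ?_⟩
    rw [zero_pow hd] at h
    rw [mul_zero]
    exact (pow_eq_zero_iff hd).1 h
  · have : NeZero d := ⟨hd⟩
    have h1 : (s / t) ^ d = 1 := by
      rw [div_pow, h, div_self (pow_ne_zero d ht)]
    obtain ⟨j, -, hj⟩ := hζ.eq_pow_of_pow_eq_one h1
    exact ⟨j, by rw [hj]; field_simp⟩

lemma ps_inv {m d : ℕ} (hd : d ≠ 0) {ζ : ℂ} (hζ : IsPrimitiveRoot ζ d) (P : Polynomial ℂ)
    (f : (Fin (m + 1) → ℂ) → ℂ) {s t : ℂ} (h : s ^ d = t ^ d) (y : Fin m → ℂ) :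
    ps d ζ P f s y = ps d ζ P f t y := by
  obtain ⟨j, rfl⟩ := root_eq hd hζ h
  have h1 := sum_shift (fun i => P.eval (f (cn (ζ ^ i * t) y))) d (by
    intro i
    simp only [pow_add, hζ.pow_eq_one, mul_one]) j
  rw [ps, ps, ← h1]
  refine Finset.sum_congr rfl fun i _ => ?_
  simp only [pow_add, mul_assoc]

section

variable {m d : ℕ} (hd : d ≠ 0) {Q R : (Fin m → ℂ) → ℂ} (hQ : Differentiable ℂ Q)
  (hR : Differentiable ℂ R) {f : (Fin (m + 1) → ℂ) → ℂ} (hf : Differentiable ℂ f)

include hd hQ hR hf in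
/-- the power sums are determined by a totally ramified fibre -/
lemma ram {ζ : ℂ} (hζ : IsPrimitiveRoot ζ d)
    (hb : ∀ c, ∃ M : ℝ, ∀ z, pw d Q R z = c → ‖f z‖ ≤ M)
    {y₁ y : Fin m → ℂ} (h1 : Q y₁ ≠ 0) (h2 : Q y ≠ 0) (h3 : R y₁ - R y ≠ 0) (P : Polynomial ℂ) :
    ps d ζ P f (rt d ((R y₁ - R y) / Q y)) y = d * P.eval (f (cn 0 y₁)) := by
  obtain ⟨M, hM⟩ := hb (R y₁)
  obtain ⟨N, hN⟩ := (isCompact_closedBall (0 : ℂ) M).exists_bound_of_continuousOn
    P.continuous.continuousOn
  let l : ℂ → (Fin m → ℂ) := fun t => y₁ + t • (y - y₁)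
  have hl : Differentiable ℂ l := fun t => (differentiableAt_id.smul_const _).const_add _
  let g : ℂ → ℂ := fun t => (R y₁ - R (l t)) / Q (l t)
  have hgd : ∀ t, Q (l t) ≠ 0 → DifferentiableAt ℂ g t := fun t ht =>
    ((differentiableAt_const _).sub ((hR.comp hl) t)).div ((hQ.comp hl) t) ht
  have hl0 : l 0 = y₁ := by simp [l]
  have hl1 : l 1 = y := by simp [l]
  have hqd : Differentiable ℂ (fun t => Q (l t) * (R y₁ - R (l t))) :=
    (hQ.comp hl).mul ((differentiable_const _).sub (hR.comp hl))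
  have hdiffx : ∀ (s : ℂ → ℂ) (t : ℂ), DifferentiableAt ℂ s t →
      DifferentiableAt ℂ (fun t => ps d ζ P f (s t) (l t)) t := by
    intro s t hs
    unfold ps
    refine DifferentiableAt.fun_sum fun i _ => ?_
    have h5 : DifferentiableAt ℂ (fun t => f (cn (ζ ^ i * s t) (l t))) t :=
      (hf _).comp t (cn_diff (hs.const_mul _) (hl t))
    exact P.differentiable.differentiableAt.comp t h5
  have hconst : ∀ t, Q (l t) * (R y₁ - R (l t)) ≠ 0 →
      ps d ζ P f (rt d (g t)) (l t) = ps d ζ P f (rt d (g 1)) (l 1) := by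
    intro t ht
    refine liouville_off (q := fun t => Q (l t) * (R y₁ - R (l t)))
      (u := fun t => ps d ζ P f (rt d (g t)) (l t)) hqd (M := d * N) ?_ ?_ ht
      (by rw [hl1]; exact mul_ne_zero h2 h3)
    · intro t ht
      have ht1 := left_ne_zero_of_mul ht
      have ht2 := right_ne_zero_of_mul ht
      obtain ⟨s, hs0, hsd, hs⟩ := branchd hd (s₀ := rt d (g t)) (hgd t ht1)
        (rt_pow hd _) (div_ne_zero ht2 ht1)
      have e : (fun t => ps d ζ P f (rt d (g t)) (l t)) = fun t => ps d ζ P f (s t) (l t) := by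
        funext x
        exact ps_inv hd hζ P f (by rw [rt_pow hd, hs]) _
      rw [e]
      exact hdiffx s t hsd
    · intro t ht
      have ht1 := left_ne_zero_of_mul ht
      unfold ps
      refine (norm_sum_le _ _).trans ?_
      have h6 : ∀ i ∈ Finset.range d, ‖P.eval (f (cn (ζ ^ i * rt d (g t)) (l t)))‖ ≤ N := by
        intro i _
        apply hN
        rw [mem_closedBall_zero_iff]
        apply hM
        apply pw_root ht1
        rw [mul_pow, rt_pow hd, ← pow_mul, mul_comm i d, pow_mul, hζ.pow_eq_one, one_pow, one_mul]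
      refine (Finset.sum_le_sum h6).trans ?_
      simp
  have hev := ev_ne hqd (s := 1) (by rw [hl1]; exact mul_ne_zero h2 h3) 0
  have hg0 : g 0 = 0 := by simp only [g, hl0, sub_self, zero_div]
  have hQ0 : Q (l 0) ≠ 0 := by rw [hl0]; exact h1
  have hrt : ContinuousAt (fun t => rt d (g t)) 0 := by
    have h7 := tendsto_rt hd (g := g) (hgd 0 hQ0).continuousAt hg0
    rw [ContinuousAt, hg0, rt_zero hd]
    exact h7
  have hcont : ContinuousAt (fun t => ps d ζ P f (rt d (g t)) (l t)) 0 := by
    unfold ps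
    refine tendsto_finsetSum _ fun i _ => ?_
    have hcn : Continuous (fun p : ℂ × (Fin m → ℂ) => cn p.1 p.2) := by
      rw [continuous_pi_iff]
      intro j
      refine Fin.cases ?_ (fun j => ?_) j
      · have e : (fun p : ℂ × (Fin m → ℂ) => cn p.1 p.2 0) = fun p => p.1 := by
          funext p; simp [cn]
        rw [e]; exact continuous_fst
      · have e : (fun p : ℂ × (Fin m → ℂ) => cn p.1 p.2 j.succ) = fun p => p.2 j := by
          funext p; simp [cn]
        rw [e]; exact (continuous_apply j).comp continuous_snd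
    have h8 : ContinuousAt (fun t => (ζ ^ i * rt d (g t), l t)) 0 :=
      (hrt.const_mul _).prodMk (hl.continuous.continuousAt)
    exact P.continuous.continuousAt.comp_of_eq ((hf.continuous.comp hcn).continuousAt.comp h8) rfl
  have t1 : Tendsto (fun t => ps d ζ P f (rt d (g t)) (l t)) (𝓝[≠] 0)
      (𝓝 (ps d ζ P f (rt d (g 0)) (l 0))) := hcont.tendsto.mono_left nhdsWithin_le_nhds
  have t2 : Tendsto (fun t => ps d ζ P f (rt d (g t)) (l t)) (𝓝[≠] 0)
      (𝓝 (ps d ζ P f (rt d (g 1)) (l 1))) := by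
    refine tendsto_const_nhds.congr' ?_
    filter_upwards [hev] with t ht
    exact (hconst t ht).symm
  have h9 := tendsto_nhds_unique t2 t1
  have h10 : rt d (g 1) = rt d ((R y₁ - R y) / Q y) := by simp only [g, hl1]
  rw [h10, hl1] at h9
  rw [h9, hg0, rt_zero hd, hl0]
  simp [ps]

include hd hQ hR hf in
/-- all values agree on the fibres that have a totally ramified point -/
lemma ram_same {ζ : ℂ} (hζ : IsPrimitiveRoot ζ d)
    (hb : ∀ c, ∃ M : ℝ, ∀ z, pw d Q R z = c → ‖f z‖ ≤ M)
    {y₁ y : Fin m → ℂ} (h1 : Q y₁ ≠ 0) (h2 : Q y ≠ 0) (h3 : R y₁ - R y ≠ 0) {x : ℂ}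
    (hx : x ^ d = (R y₁ - R y) / Q y) : f (cn x y) = f (cn 0 y₁) := by
  classical
  set v := f (cn 0 y₁) with hv
  let w : ℕ → ℂ := fun i => f (cn (ζ ^ i * x) y)
  let S : Finset ℂ := insert v ((Finset.range d).image w)
  let P : Polynomial ℂ := Lagrange.interpolate S id (fun a => if a = v then 0 else 1)
  have hP : ∀ a ∈ S, P.eval a = if a = v then 0 else 1 := fun a ha =>
    Lagrange.eval_interpolate_at_node (v := id) _ Function.injective_id.injOn ha
  have h4 := ram hd hQ hR hf hζ hb h1 h2 h3 P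
  rw [ps_inv hd hζ P f (show (rt d ((R y₁ - R y) / Q y)) ^ d = x ^ d by rw [rt_pow hd, hx]) y,
    ← hv, hP v (Finset.mem_insert_self _ _), if_pos rfl, mul_zero] at h4
  have h5 : ∑ i ∈ Finset.range d, (if w i = v then (0 : ℂ) else 1) = 0 := by
    have h50 : ps d ζ P f x y = ∑ i ∈ Finset.range d, (if w i = v then (0 : ℂ) else 1) := by
      unfold ps
      refine Finset.sum_congr rfl fun i hi => ?_
      exact hP (w i) (Finset.mem_insert_of_mem (Finset.mem_image_of_mem w hi))
    rw [← h50]
    exact h4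
  have h6 : ∀ i ∈ Finset.range d, w i = v := by
    have h7 : ((((Finset.range d).filter (fun i => ¬ w i = v)).card : ℕ) : ℂ) = 0 := by
      rw [← h5, Finset.sum_ite]
      simp
    have h8 : (Finset.range d).filter (fun i => ¬ w i = v) = ∅ := by
      rw [← Finset.card_eq_zero]
      exact_mod_cast h7
    intro i hi
    by_contra hne
    have : i ∈ (Finset.range d).filter (fun i => ¬ w i = v) := Finset.mem_filter.2 ⟨hi, hne⟩
    rw [h8] at this
    simp at this
  have h7 := h6 0 (Finset.mem_range.2 (Nat.pos_of_ne_zero hd))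
  simpa [w] using h7

include hd hQ hR in
/-- **The functions `z₀ ^ d Q + R`.** -/
theorem pow_atom {y₀ : Fin m → ℂ} (h0 : Q y₀ ≠ 0) (hcase : d = 1 ∨ ∃ a b, R a ≠ R b) :
    LAtom (pw d Q R) := by
  have hsurj : ∀ c, pw d Q R (cn (rt d ((c - R y₀) / Q y₀)) y₀) = c := fun c =>
    pw_root h0 (rt_pow hd _)
  refine ⟨pw_diff d hQ hR, ⟨_, _, ((hsurj 0).trans_ne zero_ne_one).trans_eq (hsurj 1).symm⟩, ?_⟩
  intro f hf hp
  have hb : ∀ c, ∃ M : ℝ, ∀ z, pw d Q R z = c → ‖f z‖ ≤ M := fun c =>
    bdd_fibre hf hp c ⟨_, hsurj c⟩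
  have hsame : ∀ (s s' : ℂ) (y : Fin m → ℂ), s ^ d = s' ^ d → f (cn s y) = f (cn s' y) := by
    rcases hcase with h1 | ⟨a, b, hab⟩
    · subst h1
      intro s s' y h
      rw [pow_one, pow_one] at h
      rw [h]
    · -- a second value of `R` off the zeros of `Q`
      obtain ⟨y₁, hy1, hy2⟩ : ∃ y₁, Q y₁ ≠ 0 ∧ R y₁ ≠ R y₀ := by
        by_contra hcon
        push Not at hcon
        have hall : ∀ a, R a = R y₀ := by
          intro a
          let l : ℂ → (Fin m → ℂ) := fun t => a + t • (y₀ - a)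
          have hl : Differentiable ℂ l := fun t => (differentiableAt_id.smul_const _).const_add _
          have := eq_of_off (q := fun t => Q (l t)) (a := fun t => R (l t)) (b := fun _ => R y₀)
            (hQ.comp hl) (s := 1) (by simpa [l] using h0) (hR.comp hl).continuous
            continuous_const (fun t ht => hcon _ ht) 0
          simpa [l] using this
        exact hab ((hall a).trans (hall b).symm)
      -- the values of `R` off the zeros of `Q` fill a neighbourhood
      have himg : ∀ᶠ c in 𝓝 (R y₀), ∃ y, Q y ≠ 0 ∧ R y = c := by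
        let l : ℂ → (Fin m → ℂ) := fun t => y₀ + t • (y₁ - y₀)
        have hl : Differentiable ℂ l := fun t => (differentiableAt_id.smul_const _).const_add _
        have hr : Differentiable ℂ (fun t => R (l t)) := hR.comp hl
        have hl0 : l 0 = y₀ := by simp [l]
        have hl1 : l 1 = y₁ := by simp [l]
        rcases (hr.analyticAt 0).eventually_constant_or_nhds_le_map_nhds with h | h
        · exfalso
          have ha : AnalyticOnNhd ℂ (fun t => R (l t)) Set.univ := fun x _ => hr.analyticAt x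
          have hc : AnalyticOnNhd ℂ (fun _ : ℂ => R (l 0)) Set.univ := fun x _ =>
            analyticAt_const
          have := ha.eqOn_of_preconnected_of_eventuallyEq hc isPreconnected_univ
            (Set.mem_univ 0) h (Set.mem_univ 1)
          simp only [hl0, hl1] at this
          exact hy2 this
        · have hV : {t : ℂ | Q (l t) ≠ 0} ∈ 𝓝 (0 : ℂ) :=
            (hQ.comp hl).continuous.continuousAt.eventually_ne (by
              simp only [Function.comp, hl0]; exact h0)
          have h2 := h (image_mem_map hV)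
          rw [hl0] at h2
          filter_upwards [h2] with c hc
          obtain ⟨t, ht, rfl⟩ := hc
          exact ⟨l t, ht, rfl⟩
      set ζ : ℂ := Complex.exp (2 * Real.pi * Complex.I / d) with hζdef
      have hζ : IsPrimitiveRoot ζ d := Complex.isPrimitiveRoot_exp d hd
      -- the rotation acts trivially near a totally ramified point
      let H : (Fin (m + 1) → ℂ) → ℂ := fun z => f (cn (ζ * z 0) (Fin.tail z)) - f z
      have hHd : Differentiable ℂ H := by
        intro z
        have h5 : DifferentiableAt ℂ (fun z : Fin (m + 1) → ℂ => cn (ζ * z 0) (Fin.tail z)) z :=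
          diffAt_cons (((differentiable_apply (0 : Fin (m + 1))) z).const_mul _) ((diff_tail m) z)
        exact ((hf _).comp z h5).sub (hf z)
      have hloc : ∀ᶠ z in 𝓝 (cn 0 y₀ : Fin (m + 1) → ℂ), H z = 0 := by
        have c1 : Tendsto (pw d Q R) (𝓝 (cn 0 y₀)) (𝓝 (R y₀)) := by
          have := (pw_diff d hQ hR).continuous.tendsto (cn 0 y₀)
          rwa [pw_cn, zero_pow hd, zero_mul, zero_add] at this
        have c2 : ∀ᶠ z in 𝓝 (cn 0 y₀ : Fin (m + 1) → ℂ), Q (Fin.tail z) ≠ 0 :=
          (hQ.comp (diff_tail m)).continuous.continuousAt.eventually_ne (by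
            simpa [cn] using h0)
        filter_upwards [c1.eventually himg, c2] with z hz1 hz2
        obtain ⟨y₂, hq2, hr2⟩ := hz1
        have hzc : cn (z 0) (Fin.tail z) = z := Fin.cons_self_tail z
        by_cases hz0 : z 0 = 0
        · have e0 : (cn (ζ * z 0) (Fin.tail z) : Fin (m + 1) → ℂ) = z := by
            conv_rhs => rw [← hzc]
            rw [hz0, mul_zero]
          simp only [H]
          rw [e0, sub_self]
        · have e1 : R y₂ - R (Fin.tail z) = z 0 ^ d * Q (Fin.tail z) := by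
            rw [hr2]; simp [pw]
          have e2 : z 0 ^ d = (R y₂ - R (Fin.tail z)) / Q (Fin.tail z) := by
            rw [e1]; field_simp
          have e3 : (ζ * z 0) ^ d = (R y₂ - R (Fin.tail z)) / Q (Fin.tail z) := by
            rw [mul_pow, hζ.pow_eq_one, one_mul, e2]
          have e4 : R y₂ - R (Fin.tail z) ≠ 0 := by
            rw [e1]; exact mul_ne_zero (pow_ne_zero d hz0) hz2
          have f1 := ram_same hd hQ hR hf hζ hb hq2 hz2 e4 e2
          have f2 := ram_same hd hQ hR hf hζ hb hq2 hz2 e4 e3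
          simp only [H]
          rw [f2, ← f1, hzc, sub_self]
      have hH0 : ∀ z, H z = 0 := by
        intro z
        let w : ℂ → (Fin (m + 1) → ℂ) := fun t => cn 0 y₀ + t • (z - cn 0 y₀)
        have hw : Differentiable ℂ w := fun t => (differentiableAt_id.smul_const _).const_add _
        have hw0 : w 0 = cn 0 y₀ := by simp [w]
        have hw1 : w 1 = z := by simp [w]
        have ha : AnalyticOnNhd ℂ (fun t => H (w t)) Set.univ := fun x _ =>
          (hHd.comp hw).analyticAt x
        have hev : (fun t => H (w t)) =ᶠ[𝓝 0] 0 := by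
          have hc : Tendsto w (𝓝 0) (𝓝 (cn 0 y₀)) := by
            have := hw.continuous.tendsto 0
            rwa [hw0] at this
          exact hc.eventually hloc
        have := ha.eqOn_zero_of_preconnected_of_eventuallyEq_zero isPreconnected_univ
          (Set.mem_univ 0) hev (Set.mem_univ 1)
        simpa [hw1] using this
      intro s s' y h
      obtain ⟨j, rfl⟩ := root_eq hd hζ h
      clear h
      induction j with
      | zero => simp
      | succ j ih =>
        have h8 := hH0 (cn (ζ ^ j * s') y)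
        simp only [H, cn, Fin.cons_zero, Fin.tail_cons] at h8
        rw [← ih]
        rw [pow_succ', mul_assoc]
        exact sub_eq_zero.1 h8
  obtain ⟨φ, hφ, hφ2⟩ := pow_factor hd hQ hR hf hb h0 hsame
  exact ⟨φ, hφ.differentiableOn, hφ2⟩

end

end Pool.Agent.H44.LA
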