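import Mathlib
import Pool.Agent.H44.LA.Gat
import Pool.Agent.H44.LA.Pow2
import Pool.Agent.H44.LA.Quad
import Pool.Agent.H44.LA.Comp

set_option autoImplicit false

open Filter Topology

namespace Pool.Agent.H44.LA

lemma dAt_div {E : Type} [NormedAddCommGroup E] [NormedSpace ℂ E] {a b : E → ℂ} {y : E}
    (ha : DifferentiableAt ℂ a y) (hb : DifferentiableAt ℂ b y) (h : b y ≠ 0) :
    DifferentiableAt ℂ (fun x => a x / b x) y := by
  simp only [div_eq_mul_inv]
  exact ha.mul ((differentiableAt_inv h).comp y hb)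

/-- A holomorphic `k`-th root of an entire function off its zeros extends to an entire function. -/
lemma root_extend {E : Type} [NormedAddCommGroup E] [NormedSpace ℂ E] {Q p : E → ℂ}
    (hQ : Differentiable ℂ Q) {k : ℕ} (hk : k ≠ 0)
    (hp : ∀ y, Q y ≠ 0 → DifferentiableAt ℂ p y) (hpk : ∀ y, Q y ≠ 0 → p y ^ k = Q y) :
    ∃ q : E → ℂ, Differentiable ℂ q ∧ ∀ y, Q y = q y ^ k := by
  classical
  let q : E → ℂ := fun y => if Q y = 0 then 0 else p y
  have hqk : ∀ y, q y ^ k = Q y := by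
    intro y
    by_cases h : Q y = 0
    · simp [q, h, zero_pow hk]
    · simp [q, h, hpk y h]
  have hqd : ∀ y, Q y ≠ 0 → DifferentiableAt ℂ q y := by
    intro y hy
    refine (hp y hy).congr_of_eventuallyEq ?_
    filter_upwards [hQ.continuous.continuousAt.eventually_ne hy] with x hx
    simp [q, hx]
  have hqc : Continuous q := by
    rw [continuous_iff_continuousAt]
    intro y
    by_cases h : Q y = 0
    · have h0 : q y = 0 := by simp [q, h]
      rw [ContinuousAt, h0, Metric.tendsto_nhds]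
      intro ε hε
      have h1 : ∀ᶠ x in 𝓝 y, ‖Q x‖ < ε ^ k := by
        have := hQ.continuous.norm.tendsto y
        rw [h, norm_zero] at this
        exact this.eventually_lt_const (by positivity)
      filter_upwards [h1] with x hx
      rw [dist_zero_right]
      rw [← hqk x, norm_pow] at hx
      exact lt_of_pow_lt_pow_left₀ k hε.le hx
    · exact (hqd y h).continuousAt
  refine ⟨q, gateaux hqc ?_, fun y => (hqk y).symm⟩
  intro x v
  let l : ℂ → E := fun t => x + t • v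
  have hl : Differentiable ℂ l := fun t => (differentiableAt_id.smul_const _).const_add _
  have hQl : Differentiable ℂ (fun t => Q (l t)) := hQ.comp hl
  by_cases hz : ∃ s, Q (l s) ≠ 0
  · obtain ⟨s, hs⟩ := hz
    intro t
    have h := ev_ne (q := fun t => Q (l t)) hQl hs t
    have h1 : ∀ᶠ z in 𝓝[≠] t, DifferentiableAt ℂ (fun t => q (l t)) z := by
      filter_upwards [h] with z hz
      exact (hqd _ hz).comp z (hl z)
    exact (Complex.analyticAt_of_differentiable_on_punctured_nhds_of_continuousAt h1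
      (hqc.comp hl.continuous).continuousAt).differentiableAt
  · push Not at hz
    have : (fun t : ℂ => q (x + t • v)) = fun _ => 0 := by
      funext t
      have := hz t
      simp only [l] at this
      simp [q, this]
    rw [this]
    exact differentiable_const _

/-- reduction of `p ^ d = Q ^ e` -/
lemma power_reduce {E : Type} [NormedAddCommGroup E] [NormedSpace ℂ E] {Q p : E → ℂ}
    (hQ : Differentiable ℂ Q) {d e : ℕ} (he0 : e ≠ 0) (hed : e < d)
    (hp : ∀ y, Q y ≠ 0 → DifferentiableAt ℂ p y) (hpd : ∀ y, Q y ≠ 0 → p y ^ d = Q y ^ e)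
    {y₀ : E} (h0 : Q y₀ ≠ 0) :
    ∃ k, 2 ≤ k ∧ k ∣ d ∧ ∃ q : E → ℂ, Differentiable ℂ q ∧ ∀ y, Q y = q y ^ k := by
  have hd0 : d ≠ 0 := by omega
  obtain ⟨e', d', hco, he, hd⟩ := Nat.exists_coprime e d
  set g := Nat.gcd e d with hg
  have hg0 : g ≠ 0 := by
    intro h
    rw [h, mul_zero] at hd
    exact hd0 hd
  have hd'0 : d' ≠ 0 := by
    intro h
    rw [h, zero_mul] at hd
    exact hd0 hd
  have hlt : e' < d' := by
    by_contra h
    push Not at h
    have := Nat.mul_le_mul_right g h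
    omega
  have he'0 : e' ≠ 0 := by
    intro h
    rw [h, zero_mul] at he
    exact he0 he
  have hd2 : 1 < d' := by omega
  have hpne : ∀ y, Q y ≠ 0 → p y ≠ 0 := by
    intro y hy h
    have := hpd y hy
    rw [h, zero_pow hd0] at this
    exact pow_ne_zero e hy this.symm
  let u : E → ℂ := fun y => Q y ^ e' / p y ^ d'
  have hug : ∀ y, Q y ≠ 0 → u y ^ g = 1 := by
    intro y hy
    have h1 := hpd y hy
    rw [he, hd, pow_mul, pow_mul] at h1
    simp only [u]
    rw [div_pow, ← h1, div_self (pow_ne_zero _ (pow_ne_zero _ (hpne y hy)))]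
  have hun : ∀ y, Q y ≠ 0 → ‖u y‖ ≤ 1 := by
    intro y hy
    have h1 := congrArg norm (hug y hy)
    rw [norm_pow, norm_one] at h1
    exact le_of_eq ((pow_eq_one_iff_of_nonneg (norm_nonneg _) hg0).1 h1)
  have huc : ∀ y, Q y ≠ 0 → u y = u y₀ := by
    intro y hy
    let l : ℂ → E := fun t => y + t • (y₀ - y)
    have hl : Differentiable ℂ l := fun t => (differentiableAt_id.smul_const _).const_add _
    have h := liouville_off (q := fun t => Q (l t)) (u := fun t => u (l t)) (hQ.comp hl)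
      (fun t ht => by
        have h2 : DifferentiableAt ℂ u (l t) :=
          dAt_div ((hQ _).fun_pow e') ((hp _ ht).fun_pow d') (pow_ne_zero _ (hpne _ ht))
        exact h2.comp t (hl t)) (M := 1) (fun t ht => hun _ ht)
      (s := 0) (t := 1) (by simpa [l] using hy) (by simpa [l] using h0)
    simpa [l] using h
  obtain ⟨m, -, hm⟩ := Nat.exists_mul_mod_eq_one_of_coprime hco hd2
  set v := e' * m / d' with hv
  have hbez : e' * m = d' * v + 1 := by
    rw [← hm]; exact (Nat.div_add_mod _ _).symm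
  set κ := rt d' (u y₀) with hκ
  have hκd : κ ^ d' = u y₀ := rt_pow hd'0 _
  have hroot : ∀ y, Q y ≠ 0 → (κ * p y) ^ d' = Q y ^ e' := by
    intro y hy
    rw [mul_pow, hκd, ← huc y hy]
    simp only [u]
    rw [div_mul_cancel₀ _ (pow_ne_zero _ (hpne y hy))]
  refine ⟨d', hd2, ⟨g, hd⟩, ?_⟩
  refine root_extend hQ hd'0 (p := fun y => (κ * p y) ^ m / Q y ^ v) ?_ ?_
  · intro y hy
    exact dAt_div (((hp y hy).const_mul κ).fun_pow m) ((hQ y).fun_pow v) (pow_ne_zero _ hy)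
  · intro y hy
    rw [div_pow, ← pow_mul, mul_comm m d', pow_mul, hroot y hy, ← pow_mul, ← pow_mul, hbez,
      mul_comm v d', pow_succ]
    exact mul_div_cancel_left₀ _ (pow_ne_zero _ hy)

lemma branchE {E : Type} [NormedAddCommGroup E] [NormedSpace ℂ E] {d : ℕ} (hd : d ≠ 0) {g : E → ℂ}
    {y : E} {s₀ : ℂ} (hg : DifferentiableAt ℂ g y) (hs : s₀ ^ d = g y) (h0 : g y ≠ 0) :
    ∃ s : E → ℂ, s y = s₀ ∧ DifferentiableAt ℂ s y ∧ ∀ x, s x ^ d = g x := by
  refine ⟨fun x => s₀ * rt d (g x / g y), ?_, ?_, ?_⟩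
  · simp [rt, div_self h0]
  · have h1 : DifferentiableAt ℂ (fun x => g x / g y) y := by
      simp only [div_eq_mul_inv]
      exact hg.mul_const _
    refine (differentiableAt_const _).mul ?_
    refine h1.cpow (differentiableAt_const _) ?_
    rw [div_self h0]
    exact Complex.one_mem_slitPlane
  · intro x
    rw [mul_pow, rt_pow hd, hs]
    field_simp

/-- twisted sums -/
noncomputable def ws {m : ℕ} (d : ℕ) (ζ : ℂ) (e : ℕ) (f : (Fin (m + 1) → ℂ) → ℂ) (x : ℂ)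
    (y : Fin m → ℂ) : ℂ := ∑ i ∈ Finset.range d, ζ ^ (i * e) * f (cn (ζ ^ i * x) y)

lemma ws_rot {m d : ℕ} {ζ : ℂ} (hζ : IsPrimitiveRoot ζ d) (e : ℕ)
    (f : (Fin (m + 1) → ℂ) → ℂ) (x : ℂ) (y : Fin m → ℂ) (j : ℕ) :
    ζ ^ (j * e) * ws d ζ e f (ζ ^ j * x) y = ws d ζ e f x y := by
  have h1 := sum_shift (fun i => ζ ^ (i * e) * f (cn (ζ ^ i * x) y)) d (by
    intro i
    simp only [add_mul, pow_add, hζ.pow_eq_one, mul_one, pow_mul ζ d e, one_pow]) j
  rw [ws, ws, ← h1, Finset.mul_sum]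
  refine Finset.sum_congr rfl fun i _ => ?_
  rw [add_mul, pow_add, pow_add, mul_assoc (ζ ^ i), ← mul_assoc, mul_comm (ζ ^ (j * e))]

lemma ws_inv {m d : ℕ} (hd : d ≠ 0) {ζ : ℂ} (hζ : IsPrimitiveRoot ζ d) (e : ℕ)
    (f : (Fin (m + 1) → ℂ) → ℂ) {s t : ℂ} (h : s ^ d = t ^ d) (y : Fin m → ℂ) :
    ws d ζ e f s y * s ^ e = ws d ζ e f t y * t ^ e := by
  obtain ⟨j, rfl⟩ := root_eq hd hζ h
  rw [← ws_rot hζ e f t y j, mul_pow, ← pow_mul]
  ring

lemma ws_sum {m d : ℕ} (hd : d ≠ 0) {ζ : ℂ} (hζ : IsPrimitiveRoot ζ d)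
    (f : (Fin (m + 1) → ℂ) → ℂ) (x : ℂ) (y : Fin m → ℂ) :
    ∑ e ∈ Finset.range d, ws d ζ e f x y = d * f (cn x y) := by
  unfold ws
  rw [Finset.sum_comm]
  have h1 : ∀ i ∈ Finset.range d, (∑ e ∈ Finset.range d, ζ ^ (i * e) * f (cn (ζ ^ i * x) y)) =
      if i = 0 then (d : ℂ) * f (cn x y) else 0 := by
    intro i hi
    rw [← Finset.sum_mul]
    by_cases h : i = 0
    · subst h
      simp
    · rw [if_neg h]
      have h2 : ζ ^ i ≠ 1 := hζ.pow_ne_one_of_pos_of_lt h (Finset.mem_range.1 hi)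
      have h3 : (∑ e ∈ Finset.range d, ζ ^ (i * e)) = 0 := by
        have h4 := geom_sum_mul (ζ ^ i) d
        rw [← pow_mul, mul_comm i d, pow_mul, hζ.pow_eq_one, one_pow, sub_self] at h4
        simp only [← pow_mul] at h4
        exact (mul_eq_zero.1 h4).resolve_right (sub_ne_zero.2 h2)
      rw [h3, zero_mul]
  rw [Finset.sum_congr rfl h1]
  simp [Finset.mem_range, Nat.pos_of_ne_zero hd]

section

variable {m d : ℕ} (hd : d ≠ 0) {Q : (Fin m → ℂ) → ℂ} (hQ : Differentiable ℂ Q) {r : ℂ}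
  {f : (Fin (m + 1) → ℂ) → ℂ} (hf : Differentiable ℂ f)

include hd hQ hf in
lemma twist {ζ : ℂ} (hζ : IsPrimitiveRoot ζ d)
    (hb : ∀ c, ∃ M : ℝ, ∀ z, pw d Q (fun _ => r) z = c → ‖f z‖ ≤ M) {e : ℕ} {s₁ : ℂ}
    {y₁ : Fin m → ℂ} (hs : s₁ ≠ 0) (h1 : Q y₁ ≠ 0) (hw : ws d ζ e f s₁ y₁ ≠ 0) :
    ∃ p : (Fin m → ℂ) → ℂ, (∀ y, Q y ≠ 0 → DifferentiableAt ℂ p y) ∧
      ∀ y, Q y ≠ 0 → p y ^ d = Q y ^ e := by
  set c : ℂ := s₁ ^ d * Q y₁ with hc
  have hc0 : c ≠ 0 := mul_ne_zero (pow_ne_zero _ hs) h1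
  obtain ⟨M, hM⟩ := hb (c + r)
  let g : (Fin m → ℂ) → ℂ := fun y => c / Q y
  have hg0 : ∀ y, Q y ≠ 0 → g y ≠ 0 := fun y hy => div_ne_zero hc0 hy
  have hgd : ∀ y, Q y ≠ 0 → DifferentiableAt ℂ g y := fun y hy =>
    dAt_div (differentiableAt_const _) (hQ y) hy
  let V : (Fin m → ℂ) → ℂ := fun y => ws d ζ e f (rt d (g y)) y * rt d (g y) ^ e
  have hVs : ∀ (s : ℂ) (y : Fin m → ℂ), s ^ d = g y → V y = ws d ζ e f s y * s ^ e := by
    intro s y h
    exact ws_inv hd hζ e f (by rw [rt_pow hd, h]) y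
  have hVd : ∀ y, Q y ≠ 0 → DifferentiableAt ℂ V y := by
    intro y hy
    obtain ⟨s, hs0, hsd, hsx⟩ := branchE hd (s₀ := rt d (g y)) (hgd y hy) (rt_pow hd _) (hg0 y hy)
    have e1 : V = fun y => ws d ζ e f (s y) y * s y ^ e := by
      funext x
      exact hVs _ _ (hsx x)
    rw [e1]
    refine DifferentiableAt.mul ?_ (hsd.pow e)
    unfold ws
    refine DifferentiableAt.fun_sum fun i _ => ?_
    refine (differentiableAt_const _).mul ?_
    have h5 : DifferentiableAt ℂ (fun y : Fin m → ℂ => (cn (ζ ^ i * s y) y : Fin (m + 1) → ℂ)) y :=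
      diffAt_cons (hsd.const_mul _) differentiableAt_id
    exact (hf _).comp y h5
  have hζn : ‖ζ‖ = 1 := by
    have h2 := congrArg norm hζ.pow_eq_one
    rw [norm_pow, norm_one] at h2
    exact (pow_eq_one_iff_of_nonneg (norm_nonneg _) hd).1 h2
  have hwb : ∀ (s : ℂ) (y : Fin m → ℂ), Q y ≠ 0 → s ^ d = g y → ‖ws d ζ e f s y‖ ≤ d * M := by
    intro s y hy hsy
    unfold ws
    refine (norm_sum_le _ _).trans ?_
    have h6 : ∀ i ∈ Finset.range d, ‖ζ ^ (i * e) * f (cn (ζ ^ i * s) y)‖ ≤ M := by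
      intro i _
      rw [norm_mul, norm_pow, hζn, one_pow, one_mul]
      apply hM
      apply pw_root hy
      rw [mul_pow, hsy, ← pow_mul, mul_comm i d, pow_mul, hζ.pow_eq_one, one_pow, one_mul]
      simp only [g, add_sub_cancel_right]
    refine (Finset.sum_le_sum h6).trans ?_
    simp
  have hVw : ∀ (s : ℂ) (y : Fin m → ℂ), Q y ≠ 0 → s ^ d = g y →
      V y ^ d * Q y ^ e = ws d ζ e f s y ^ d * c ^ e := by
    intro s y hy hsy
    rw [hVs s y hsy, mul_pow, ← pow_mul, mul_comm e d, pow_mul, hsy, mul_assoc, ← mul_pow]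
    simp only [g]
    rw [div_mul_cancel₀ _ hy]
  set K : ℂ := V y₁ ^ d * Q y₁ ^ e with hK
  have hg1 : s₁ ^ d = g y₁ := by
    simp only [g, hc]
    field_simp
  have hK0 : K ≠ 0 := by
    rw [hK, hVw s₁ y₁ h1 hg1]
    exact mul_ne_zero (pow_ne_zero _ hw) (pow_ne_zero _ hc0)
  have hKc : ∀ y, Q y ≠ 0 → V y ^ d * Q y ^ e = K := by
    intro y hy
    let l : ℂ → (Fin m → ℂ) := fun t => y + t • (y₁ - y)
    have hl : Differentiable ℂ l := fun t => (differentiableAt_id.smul_const _).const_add _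
    have h := liouville_off (q := fun t => Q (l t)) (u := fun t => V (l t) ^ d * Q (l t) ^ e)
      (hQ.comp hl) (fun t ht => by
        have h2 : DifferentiableAt ℂ (fun y => V y ^ d * Q y ^ e) (l t) :=
          ((hVd _ ht).pow d).mul ((hQ _).pow e)
        exact h2.comp t (hl t)) (M := (d * M) ^ d * ‖c‖ ^ e) (fun t ht => by
        rw [hVw _ _ ht (rt_pow hd _), norm_mul, norm_pow, norm_pow]
        gcongr
        exact hwb _ _ ht (rt_pow hd _))
      (s := 0) (t := 1) (by simpa [l] using hy) (by simpa [l] using h1)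
    simpa [l] using h
  have hV0 : ∀ y, Q y ≠ 0 → V y ≠ 0 := by
    intro y hy h
    have := hKc y hy
    rw [h, zero_pow hd, zero_mul] at this
    exact hK0 this.symm
  refine ⟨fun y => rt d K / V y, fun y hy => dAt_div (differentiableAt_const _) (hVd y hy) (hV0 y hy),
    fun y hy => ?_⟩
  rw [div_pow, rt_pow hd, ← hKc y hy]
  exact mul_div_cancel_left₀ _ (pow_ne_zero _ (hV0 y hy))

include hd hQ hf in
/-- constant `R` -/
lemma same_const (hb : ∀ c, ∃ M : ℝ, ∀ z, pw d Q (fun _ => r) z = c → ‖f z‖ ≤ M)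
    {y₀ : Fin m → ℂ} (h0 : Q y₀ ≠ 0)
    (hno : ¬ ∃ k, 2 ≤ k ∧ k ∣ d ∧ ∃ q : (Fin m → ℂ) → ℂ, Differentiable ℂ q ∧
      ∀ y, Q y = q y ^ k) (s s' : ℂ) (y : Fin m → ℂ) (h : s ^ d = s' ^ d) :
    f (cn s y) = f (cn s' y) := by
  set ζ : ℂ := Complex.exp (2 * Real.pi * Complex.I / d) with hζdef
  have hζ : IsPrimitiveRoot ζ d := Complex.isPrimitiveRoot_exp d hd
  have hws : ∀ e ∈ Finset.range d, e ≠ 0 → ∀ (x : ℂ) (y : Fin m → ℂ), x ≠ 0 → Q y ≠ 0 →
      ws d ζ e f x y = 0 := by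
    intro e he he0 x y hx hy
    by_contra hw
    obtain ⟨p, hp, hpd⟩ := twist hd hQ hf hζ hb hx hy hw
    exact hno (power_reduce hQ he0 (Finset.mem_range.1 he) hp hpd h0)
  have hz : ∀ (x : ℂ) (y : Fin m → ℂ), x ≠ 0 → Q y ≠ 0 → ws d ζ 0 f x y = d * f (cn x y) := by
    intro x y hx hy
    rw [← ws_sum hd hζ f x y]
    rw [Finset.sum_eq_single_of_mem 0 (Finset.mem_range.2 (Nat.pos_of_ne_zero hd))]
    intro e he he0
    exact hws e he he0 x y hx hy
  have hζ0 : ζ ≠ 0 := hζ.ne_zero hd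
  have hrot : ∀ (x : ℂ) (y : Fin m → ℂ), x ≠ 0 → Q y ≠ 0 → f (cn (ζ * x) y) = f (cn x y) := by
    intro x y hx hy
    have h1 := hz x y hx hy
    have h2 := hz (ζ * x) y (mul_ne_zero hζ0 hx) hy
    have h3 := ws_rot hζ 0 f x y 1
    simp only [mul_zero, pow_zero, one_mul, pow_one] at h3
    rw [h3, h1] at h2
    exact (mul_left_cancel₀ (Nat.cast_ne_zero.2 hd) h2).symm
  have hrot2 : ∀ (x : ℂ) (y : Fin m → ℂ), x ≠ 0 → f (cn (ζ * x) y) = f (cn x y) := by
    intro x y hx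
    let l : ℂ → (Fin m → ℂ) := fun t => y + t • (y₀ - y)
    have hl : Differentiable ℂ l := fun t => (differentiableAt_id.smul_const _).const_add _
    have hc : ∀ x : ℂ, Continuous (fun t => f (cn x (l t))) := by
      intro x
      have : Differentiable ℂ (fun t => f (cn x (l t))) := fun t =>
        (hf _).comp t (cn_diff (differentiableAt_const _) (hl t))
      exact this.continuous
    have := eq_of_off (q := fun t => Q (l t)) (a := fun t => f (cn (ζ * x) (l t)))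
      (b := fun t => f (cn x (l t))) (hQ.comp hl) (s := 1) (by simpa [l] using h0)
      (hc _) (hc _) (fun t ht => hrot x _ hx ht) 0
    simpa [l] using this
  obtain ⟨j, rfl⟩ := root_eq hd hζ h
  clear h
  by_cases hs' : s' = 0
  · subst hs'; simp
  induction j with
  | zero => simp
  | succ j ih =>
    rw [← ih, pow_succ', mul_assoc]
    exact hrot2 _ y (mul_ne_zero (pow_ne_zero _ hζ0) hs')

include hd in
/-- powers -/
lemma not_atom_pow {k : ℕ} (hk : 2 ≤ k) (hkd : k ∣ d) {q : (Fin m → ℂ) → ℂ}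
    (hq : Differentiable ℂ q) (hqk : ∀ y, Q y = q y ^ k) {y₀ : Fin m → ℂ} (h0 : Q y₀ ≠ 0) :
    ¬ LAtom (pw d Q (fun _ => r)) := by
  obtain ⟨e, rfl⟩ := hkd
  have hk0 : k ≠ 0 := by omega
  have he : e ≠ 0 := by
    rintro rfl
    exact hd (mul_zero k)
  have hq0 : q y₀ ≠ 0 := by
    intro h
    apply h0
    rw [hqk, h, zero_pow hk0]
  rintro ⟨-, -, hat⟩
  let b : (Fin (m + 1) → ℂ) → ℂ := fun z => z 0 ^ e * q (Fin.tail z)
  have d0 : Differentiable ℂ (fun z : Fin (m + 1) → ℂ => z 0) := differentiable_apply 0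
  have hb : Differentiable ℂ b := (d0.pow e).mul (hq.comp (diff_tail m))
  have hbp : ∀ z, pw (k * e) Q (fun _ => r) z = b z ^ k + r := by
    intro z
    simp only [pw, b, hqk, mul_pow, ← pow_mul, mul_comm k e]
  have hsurj : ∀ w, ∃ z, b z = w := by
    intro w
    refine ⟨cn (rt e (w / q y₀)) y₀, ?_⟩
    simp only [b, cn, Fin.cons_zero, Fin.tail_cons, rt_pow he]
    field_simp
  have hpair : LPair b (pw (k * e) Q (fun _ => r)) := by
    intro z _ hL K hK _
    have hcl : IsClosed {w : ℂ | w ^ k + r ∈ K} :=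
      hK.isClosed.preimage ((continuous_pow k).add continuous_const)
    obtain ⟨M, hM⟩ := hK.isBounded.exists_norm_le
    have hbd : {w : ℂ | w ^ k + r ∈ K} ⊆ Metric.closedBall 0 (M + ‖r‖ + 1) := by
      intro w hw
      rw [mem_closedBall_zero_iff]
      have h1 := hM _ hw
      have h2 : ‖w ^ k‖ ≤ ‖w ^ k + r‖ + ‖r‖ := by
        have := norm_sub_le (w ^ k + r) r
        simpa using this
      rw [norm_pow] at h2
      by_contra hlt
      push Not at hlt
      have hM0 : 0 ≤ M := (norm_nonneg _).trans h1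
      have h3 : 1 ≤ ‖w‖ := by linarith [norm_nonneg r]
      have h4 : ‖w‖ ≤ ‖w‖ ^ k := le_self_pow₀ h3 hk0
      linarith
    have hcomp : IsCompact {w : ℂ | w ^ k + r ∈ K} :=
      (isCompact_closedBall (0 : ℂ) _).of_isClosed_subset hcl hbd
    have h5 := hL _ hcomp (fun w _ => hsurj w)
    refine h5.subset ?_
    intro n hn
    change b (z n) ^ k + r ∈ K
    rw [← hbp]
    exact hn
  obtain ⟨φ, -, hφ⟩ := hat b hb hpair
  set ω : ℂ := Complex.exp (2 * Real.pi * Complex.I / k) with hω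
  have hωp : IsPrimitiveRoot ω k := Complex.isPrimitiveRoot_exp k hk0
  obtain ⟨z, hz⟩ := hsurj 1
  obtain ⟨z', hz'⟩ := hsurj ω
  have e1 := hφ z
  have e2 := hφ z'
  rw [hbp, hz, one_pow] at e1
  rw [hbp, hz', hωp.pow_eq_one, ← e1] at e2
  exact hωp.ne_one (by omega) e2

end

/-- **The functions `z₀ ^ d Q + R`.** -/
theorem bin_atom_iff {m d : ℕ} (hd : d ≠ 0) {Q R : (Fin m → ℂ) → ℂ} (hQ : Differentiable ℂ Q)
    (hR : Differentiable ℂ R) {y₀ : Fin m → ℂ} (h0 : Q y₀ ≠ 0) :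
    LAtom (pw d Q R) ↔ ¬ ((∀ a b, R a = R b) ∧ ∃ k, 2 ≤ k ∧ k ∣ d ∧
      ∃ q : (Fin m → ℂ) → ℂ, Differentiable ℂ q ∧ ∀ y, Q y = q y ^ k) := by
  constructor
  · rintro hat ⟨hRc, k, hk, hkd, q, hq, hqk⟩
    have hR' : R = fun _ => R y₀ := funext fun y => hRc y y₀
    rw [hR'] at hat
    exact not_atom_pow hd hk hkd hq hqk h0 hat
  · intro hno
    by_cases hRc : ∀ a b, R a = R b
    · have hno2 := fun h => hno ⟨hRc, h⟩
      have hR' : R = fun _ => R y₀ := funext fun y => hRc y y₀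
      rw [hR'] at hR ⊢
      have hsurj : ∀ c, pw d Q (fun _ => R y₀) (cn (rt d ((c - R y₀) / Q y₀)) y₀) = c := fun c =>
        pw_root h0 (rt_pow hd _)
      refine ⟨pw_diff d hQ hR, ⟨_, _, ((hsurj 0).trans_ne zero_ne_one).trans_eq (hsurj 1).symm⟩, ?_⟩
      intro f hf hp
      have hb : ∀ c, ∃ M : ℝ, ∀ z, pw d Q (fun _ => R y₀) z = c → ‖f z‖ ≤ M := fun c =>
        bdd_fibre hf hp c ⟨_, hsurj c⟩
      obtain ⟨φ, hφ, hφ2⟩ := pow_factor hd hQ hR hf hb h0 (same_const hd hQ hf hb h0 hno2)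
      exact ⟨φ, hφ.differentiableOn, hφ2⟩
    · push Not at hRc
      exact pow_atom hd hQ hR h0 (Or.inr hRc)

lemma aut_inv_aut {n : ℕ} {F : (Fin n → ℂ) → (Fin n → ℂ)} (hF : IsAut F) :
    ∃ G : (Fin n → ℂ) → (Fin n → ℂ), IsAut G ∧ ∀ w, F (G w) = w := by
  obtain ⟨G, hGd, hGF, hFG⟩ := aut_inv hF
  refine ⟨G, ⟨hGd, fun a b h => ?_, fun z => ⟨F z, hGF z⟩⟩, hFG⟩
  rw [← hFG a, ← hFG b, h]

theorem atom_comp_iff {n : ℕ} {α : (Fin n → ℂ) → ℂ} {F : (Fin n → ℂ) → (Fin n → ℂ)}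
    (hF : IsAut F) : LAtom (fun z => α (F z)) ↔ LAtom α := by
  refine ⟨fun h => ?_, fun h => atom_comp h hF⟩
  obtain ⟨G, hG, hFG⟩ := aut_inv_aut hF
  have := atom_comp h hG
  simpa [hFG] using this

theorem first_comp_iff {m : ℕ} {α : (Fin (m + 1) → ℂ) → ℂ}
    {F : (Fin (m + 1) → ℂ) → (Fin (m + 1) → ℂ)} (hF : IsAut F) :
    FirstComp (fun z => α (F z)) ↔ FirstComp α := by
  constructor
  · rintro ⟨H, hH, hH0⟩
    obtain ⟨G, hG, hFG⟩ := aut_inv_aut hF
    refine ⟨fun z => H (G z), ⟨hH.1.comp hG.1, hH.2.1.comp hG.2.1, hH.2.2.comp hG.2.2⟩,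
      fun z => ?_⟩
    have h1 := hH0 (G z)
    simp only [hFG] at h1
    exact h1
  · rintro ⟨H, hH, hH0⟩
    exact ⟨fun z => H (F z), ⟨hH.1.comp hF.1, hH.2.1.comp hF.2.1, hH.2.2.comp hF.2.2⟩,
      fun z => hH0 _⟩

/-- first components among the functions `z₀ ^ d Q + r` -/
theorem const_first_iff {m d : ℕ} (hd : d ≠ 0) {Q : (Fin m → ℂ) → ℂ} (hQ : Differentiable ℂ Q)
    (r : ℂ) : FirstComp (pw d Q (fun _ => r)) ↔ d = 1 ∧ ∀ y, Q y ≠ 0 := by
  constructor
  · intro hf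
    by_contra hcon
    obtain ⟨y, hy⟩ : ∃ y, (0 : ℂ) ^ (d - 1) * Q y = 0 := by
      by_cases h1 : d = 1
      · by_contra hno
        push Not at hno
        exact hcon ⟨h1, fun y => right_ne_zero_of_mul (hno y)⟩
      · exact ⟨0, by rw [zero_pow (by omega), zero_mul]⟩
    apply first_fderiv hf (cn 0 y)
    have d0 : Differentiable ℂ (fun z : Fin (m + 1) → ℂ => z 0) := differentiable_apply 0
    have hb : Differentiable ℂ (fun z : Fin (m + 1) → ℂ => z 0 ^ (d - 1) * Q (Fin.tail z)) :=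
      (d0.fun_pow _).mul (hQ.comp (diff_tail m))
    have e : pw d Q (fun _ => r) =
        fun z : Fin (m + 1) → ℂ => z 0 * (z 0 ^ (d - 1) * Q (Fin.tail z)) + r := by
      funext z
      simp only [pw]
      rw [← mul_assoc, ← pow_succ', Nat.sub_add_cancel (Nat.pos_of_ne_zero hd)]
    have h := ((d0 (cn 0 y)).hasFDerivAt.mul (hb (cn 0 y)).hasFDerivAt).add_const r
    rw [e]
    refine h.fderiv.trans ?_
    have a1 : (cn 0 y : Fin (m + 1) → ℂ) 0 = 0 := by simp [cn]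
    have a2 : Fin.tail (cn 0 y : Fin (m + 1) → ℂ) = y := by simp [cn]
    simp only [a1, a2, hy]
    ext v
    simp
  · rintro ⟨rfl, h0⟩
    have e : pw 1 Q (fun _ => r) = aff Q (fun _ => r) := by
      funext z
      simp [pw, aff]
    rw [e]
    exact is_first hQ (differentiable_const _) h0

end Pool.Agent.H44.LA
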