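import Mathlib
import Pool.Agent.H44.LA.Quad

set_option autoImplicit false

open Filter Topology

namespace Pool.Agent.H44.LA

lemma sqr_zero : sqr 0 = 0 := by
  have := sqr_sq 0
  exact pow_eq_zero_iff two_ne_zero |>.1 this

/-- the difference of the values of `f` at the two roots -/
noncomputable def Wd (A B : ℂ → ℂ) (f : (Fin 2 → ℂ) → ℂ) (y σ : ℂ) : ℂ :=
  evr A B f y σ - evr A B f y (-σ)

lemma Wd_neg (A B : ℂ → ℂ) (f : (Fin 2 → ℂ) → ℂ) (y σ : ℂ) :
    Wd A B f y (-σ) = -Wd A B f y σ := by
  simp [Wd]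

lemma disc_diffc (A B C : ℂ → ℂ) (y : ℂ) : Differentiable ℂ (fun c => disc A B C c y) := by
  unfold disc
  fun_prop

lemma evr_diffσ {A B : ℂ → ℂ} {f : (Fin 2 → ℂ) → ℂ} (hf : Differentiable ℂ f) (y : ℂ) :
    Differentiable ℂ (fun σ => evr A B f y σ) := by
  intro σ
  refine diff_vec hf ?_ (differentiableAt_const _)
  exact ((differentiableAt_const _).add differentiableAt_id).div_const _

lemma disc_quad (A B C : ℂ → ℂ) (z : Fin 2 → ℂ) :
    (2 * A (z 1) * z 0 + B (z 1)) ^ 2 = disc A B C (quad A B C z) (z 1) := by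
  simp only [disc, quad]; ring

lemma evr_self {A B : ℂ → ℂ} {f : (Fin 2 → ℂ) → ℂ} {z : Fin 2 → ℂ} (hz : A (z 1) ≠ 0) :
    evr A B f (z 1) (2 * A (z 1) * z 0 + B (z 1)) = f z := by
  unfold evr
  congr 1
  funext i
  fin_cases i
  · simp only [Fin.zero_eta, Matrix.cons_val_zero]
    field_simp
    ring
  · simp

section

variable {A B C : ℂ → ℂ} (hA : Differentiable ℂ A) (hB : Differentiable ℂ B)
  (hC : Differentiable ℂ C) {f : (Fin 2 → ℂ) → ℂ} (hf : Differentiable ℂ f)

include hA hB hC in
lemma quad_diff : Differentiable ℂ (quad A B C) := by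
  have d0 : Differentiable ℂ (fun z : Fin 2 → ℂ => z 0) := differentiable_apply 0
  have d1 : Differentiable ℂ (fun z : Fin 2 → ℂ => z 1) := differentiable_apply 1
  exact (((hA.comp d1).mul (d0.pow 2)).add ((hB.comp d1).mul d0)).add (hC.comp d1)

include hA hB hC hf in
/-- if the two values of `f` always agree then `f` is a function of `quad A B C` -/
lemma factor (hp : ∀ c, ∃ M : ℝ, ∀ z, quad A B C z = c → ‖f z‖ ≤ M) {y₀ : ℂ} (h0 : A y₀ ≠ 0)
    (hW : ∀ c y, A y ≠ 0 → disc A B C c y ≠ 0 → Wd A B f y (sqr (disc A B C c y)) = 0) :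
    ∃ φ : ℂ → ℂ, Differentiable ℂ φ ∧ ∀ z, f z = φ (quad A B C z) := by
  have hev : ∀ c y, A y ≠ 0 → evr A B f y (-sqr (disc A B C c y)) =
      evr A B f y (sqr (disc A B C c y)) := by
    intro c y hy
    by_cases hd : disc A B C c y = 0
    · rw [hd, sqr_zero, neg_zero]
    · exact (sub_eq_zero.1 (hW c y hy hd)).symm
  have hev2 : ∀ c y σ, A y ≠ 0 → σ ^ 2 = disc A B C c y →
      evr A B f y σ = evr A B f y (sqr (disc A B C c y)) := by
    intro c y σ hy hσ
    rcases eq_or_neg hσ with h | h
    · rw [h]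
    · rw [h, hev c y hy]
  let G : ℂ → ℂ := fun c => evr A B f y₀ (sqr (disc A B C c y₀))
  have hG1 : ∀ c, disc A B C c y₀ ≠ 0 → DifferentiableAt ℂ G c := by
    intro c hc
    obtain ⟨s, hs0, hsd, hs⟩ := branch (g := fun c => disc A B C c y₀)
      (s₀ := sqr (disc A B C c y₀)) (disc_diffc A B C y₀ c) (sqr_sq _) hc
    have e : G = fun c => evr A B f y₀ (s c) := by
      funext c'
      exact (hev2 c' y₀ (s c') h0 (hs c')).symm
    rw [e]
    exact (evr_diffσ hf y₀ (s c)).comp c hsd
  have hG : Differentiable ℂ G := by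
    intro c
    by_cases hc : disc A B C c y₀ = 0
    · have hcont : ContinuousAt G c := by
        have h1 : ContinuousAt (fun c => sqr (disc A B C c y₀)) c := by
          have h2 := tendsto_sqr (g := fun c => disc A B C c y₀) (y := c)
            (disc_diffc A B C y₀ c).continuousAt hc
          rw [ContinuousAt, hc, sqr_zero]
          exact h2
        exact ContinuousAt.comp (g := fun σ => evr A B f y₀ σ)
          (evr_diffσ hf y₀).continuous.continuousAt h1
      refine (Complex.analyticAt_of_differentiable_on_punctured_nhds_of_continuousAt ?_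
        hcont).differentiableAt
      rw [eventually_nhdsWithin_iff]
      refine Eventually.of_forall fun c' hc' => hG1 c' ?_
      intro h
      apply hc'
      have h3 : 4 * A y₀ * (c' - c) = 0 := by
        simp only [disc] at h hc
        linear_combination h - hc
      rcases mul_eq_zero.1 h3 with h4 | h4
      · exact absurd h4 (mul_ne_zero (by norm_num) h0)
      · exact sub_eq_zero.1 h4
    · exact hG1 c hc
  have hgen : ∀ z : Fin 2 → ℂ, A (z 1) * disc A B C (quad A B C z) (z 1) *
      disc A B C (quad A B C z) y₀ ≠ 0 → f z = G (quad A B C z) := by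
    intro z hz
    have hz3 := right_ne_zero_of_mul hz
    have hz12 := left_ne_zero_of_mul hz
    have hz1 := left_ne_zero_of_mul hz12
    have hz2 := right_ne_zero_of_mul hz12
    have hs := sym_const hA hB hC hf hp (Ψ := fun a b => a + b)
      (differentiable_fst.add differentiable_snd) (fun a b => add_comm a b) (quad A B C z)
      hz1 hz2 h0 hz3
    rw [hev _ _ hz1, hev _ _ h0] at hs
    rw [← evr_self (B := B) (f := f) hz1, hev2 _ _ _ hz1 (disc_quad A B C z)]
    change _ = evr A B f y₀ (sqr (disc A B C (quad A B C z) y₀))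
    linear_combination hs / 2
  refine ⟨G, hG, fun z => ?_⟩
  let p : Fin 2 → ℂ := ![(1 - B y₀) / (2 * A y₀), y₀]
  have hq := quad_diff hA hB hC
  have d1 : Differentiable ℂ (fun z : Fin 2 → ℂ => z 1) := differentiable_apply 1
  have hE : Differentiable ℂ (fun z : Fin 2 → ℂ => A (z 1) *
      disc A B C (quad A B C z) (z 1) * disc A B C (quad A B C z) y₀) := by
    unfold disc
    refine ((hA.comp d1).mul ?_).mul ?_
    · exact ((hB.comp d1).pow 2).sub (((differentiable_const _).mul (hA.comp d1)).mul
        ((hC.comp d1).sub hq))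
    · exact (differentiable_const _).sub ((differentiable_const _).mul
        ((differentiable_const _).sub hq))
  have hp1 : p 1 = y₀ := by simp [p]
  have hp0 : 2 * A (p 1) * p 0 + B (p 1) = 1 := by
    simp only [p, Matrix.cons_val_zero, Matrix.cons_val_one]
    field_simp
    ring
  have hEp : A (p 1) * disc A B C (quad A B C p) (p 1) * disc A B C (quad A B C p) y₀ ≠ 0 := by
    have h1 := disc_quad A B C p
    rw [hp0, one_pow] at h1
    rw [← h1, mul_one]
    rw [hp1] at h1
    rw [← h1, mul_one, hp1]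
    exact h0
  let w : ℂ → (Fin 2 → ℂ) := fun t => z + t • (p - z)
  have hw : Differentiable ℂ w := fun t => (differentiableAt_id.smul_const _).const_add _
  have hw0 : w 0 = z := by simp [w]
  have hw1 : w 1 = p := by simp [w]
  have hevn := ev_ne (hE.comp hw) (s := 1) (by
    simp only [Function.comp, hw1]; exact hEp) 0
  have h1 : Tendsto (fun t => f (w t)) (𝓝[≠] 0) (𝓝 (f (w 0))) :=
    ((hf.comp hw).continuous.tendsto 0).mono_left nhdsWithin_le_nhds
  have h2 : Tendsto (fun t => G (quad A B C (w t))) (𝓝[≠] 0) (𝓝 (G (quad A B C (w 0)))) :=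
    ((hG.comp (hq.comp hw)).continuous.tendsto 0).mono_left nhdsWithin_le_nhds
  have h3 := tendsto_nhds_unique_of_eventuallyEq h1 h2 (by
    filter_upwards [hevn] with t ht
    exact hgen _ ht)
  rwa [hw0] at h3

end

end Pool.Agent.H44.LA
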