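import Mathlib
import Pool.Agent.H44.LA.Quad2

set_option autoImplicit false

open Filter Topology

namespace Pool.Agent.H44.LA

section

variable {A B C : ℂ → ℂ} (hA : Differentiable ℂ A) (hB : Differentiable ℂ B)
  (hC : Differentiable ℂ C) {f : (Fin 2 → ℂ) → ℂ} (hf : Differentiable ℂ f)

include hA hB hf in
lemma evr_tendsto {s : ℂ → ℂ} {y a : ℂ} (hy : A y ≠ 0) (hs : Tendsto s (𝓝 y) (𝓝 a)) :
    Tendsto (fun x => evr A B f x (s x)) (𝓝 y) (𝓝 (evr A B f y a)) := by
  have h1 : Tendsto (fun x => (-B x + s x) / (2 * A x)) (𝓝 y) (𝓝 ((-B y + a) / (2 * A y))) :=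
    ((hB y).continuousAt.tendsto.neg.add hs).div
      (tendsto_const_nhds.mul (hA y).continuousAt.tendsto) (mul_ne_zero two_ne_zero hy)
  have h2 : Tendsto (fun x => (![(-B x + s x) / (2 * A x), x] : Fin 2 → ℂ)) (𝓝 y)
      (𝓝 ![(-B y + a) / (2 * A y), y]) := by
    rw [tendsto_pi_nhds]
    intro i
    fin_cases i
    · simpa using h1
    · have h3 : Tendsto (fun x : ℂ => x) (𝓝 y) (𝓝 y) := tendsto_id
      simpa using h3
  exact (hf.continuous.tendsto _).comp h2

include hA hB hC hf in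
/-- if the two values of `f` differ somewhere then `quad A B C` is a square plus a constant -/
lemma split (hp : ∀ c, ∃ M : ℝ, ∀ z, quad A B C z = c → ‖f z‖ ≤ M) {c₁ y₁ : ℂ} (h1 : A y₁ ≠ 0)
    (hd1 : disc A B C c₁ y₁ ≠ 0) (hW1 : Wd A B f y₁ (sqr (disc A B C c₁ y₁)) ≠ 0) :
    ∃ (κ : ℂ) (h k : ℂ → ℂ), Differentiable ℂ h ∧ Differentiable ℂ k ∧
      (∀ y, A y = h y ^ 2) ∧ (∀ y, B y = 2 * h y * k y) ∧ (∀ y, C y = k y ^ 2 + κ) := by
  classical
  -- the square of the difference does not depend on `y`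
  have hsq : ∀ c y y', A y ≠ 0 → disc A B C c y ≠ 0 → A y' ≠ 0 → disc A B C c y' ≠ 0 →
      Wd A B f y (sqr (disc A B C c y)) ^ 2 = Wd A B f y' (sqr (disc A B C c y')) ^ 2 := by
    intro c y y' a1 a2 a3 a4
    exact sym_const hA hB hC hf hp (Ψ := fun a b => (a - b) ^ 2)
      ((differentiable_fst.sub differentiable_snd).pow 2) (fun a b => by ring) c a1 a2 a3 a4
  -- a disc of values `c` without zeros of the discriminant
  have hopen : ∀ᶠ c in 𝓝 c₁, Wd A B f y₁ (sqr (disc A B C c y₁)) ^ 2 ≠ 0 ∧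
      disc A B C c y₁ ≠ 0 := by
    obtain ⟨s, hs0, hsd, hs⟩ := branch (g := fun c => disc A B C c y₁)
      (s₀ := sqr (disc A B C c₁ y₁)) (disc_diffc A B C y₁ c₁) (sqr_sq _) hd1
    have e : (fun c => Wd A B f y₁ (sqr (disc A B C c y₁)) ^ 2) =
        fun c => Wd A B f y₁ (s c) ^ 2 := by
      funext c
      rcases eq_or_neg (hs c) with h | h
      · rw [h]
      · rw [h, Wd_neg, neg_sq]
    have hcW : Continuous (fun σ => Wd A B f y₁ σ) := by
      unfold Wd
      exact (evr_diffσ hf y₁).continuous.sub ((evr_diffσ hf y₁).continuous.comp continuous_neg)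
    have hc : ContinuousAt (fun c => Wd A B f y₁ (sqr (disc A B C c y₁)) ^ 2) c₁ := by
      rw [e]
      exact (ContinuousAt.comp (g := fun σ => Wd A B f y₁ σ) hcW.continuousAt
        hsd.continuousAt).pow 2
    exact (hc.eventually_ne (pow_ne_zero 2 hW1)).and
      ((disc_diffc A B C y₁ c₁).continuousAt.eventually_ne hd1)
  obtain ⟨ε, hε, hball⟩ := Metric.eventually_nhds_iff.1 hopen
  have hno : ∀ c, dist c c₁ < ε → ∀ y, A y ≠ 0 → disc A B C c y ≠ 0 := by
    intro c hc y hy hd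
    obtain ⟨hT, hdc⟩ := hball hc
    have hev := ev_ne (q := fun x => A x * disc A B C c x) (hA.mul (disc_diff hA hB hC c))
      (s := y₁) (mul_ne_zero h1 hdc) y
    have hs0 : Tendsto (fun x => sqr (disc A B C c x)) (𝓝 y) (𝓝 0) :=
      tendsto_sqr (disc_diff hA hB hC c y).continuousAt hd
    have hs0' : Tendsto (fun x => -sqr (disc A B C c x)) (𝓝 y) (𝓝 0) := by
      simpa using hs0.neg
    have t1 := evr_tendsto hA hB hf hy hs0
    have t2 := evr_tendsto hA hB hf hy hs0'
    have t3 : Tendsto (fun x => Wd A B f x (sqr (disc A B C c x)) ^ 2) (𝓝[≠] y) (𝓝 0) := by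
      have := ((t1.sub t2).pow 2).mono_left (nhdsWithin_le_nhds (s := {y}ᶜ))
      simpa [Wd] using this
    have t4 : Tendsto (fun x => Wd A B f x (sqr (disc A B C c x)) ^ 2) (𝓝[≠] y)
        (𝓝 (Wd A B f y₁ (sqr (disc A B C c y₁)) ^ 2)) := by
      refine tendsto_const_nhds.congr' ?_
      filter_upwards [hev] with x hx
      exact hsq c y₁ x h1 hdc (left_ne_zero_of_mul hx) (right_ne_zero_of_mul hx)
    exact hT (tendsto_nhds_unique t4 t3)
  have hd_ne : ∀ y, A y ≠ 0 → disc A B C c₁ y ≠ 0 := hno c₁ (by simpa using hε)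
  -- Liouville for the critical value
  have hconst : ∀ y, A y ≠ 0 → A y / disc A B C c₁ y = A y₁ / disc A B C c₁ y₁ := by
    intro y hy
    refine liouville_off (q := A) (u := fun y => A y / disc A B C c₁ y) (M := 1 / (4 * ε)) hA
      (fun t ht => ?_) (fun t ht => ?_) hy h1
    · exact (hA t).div (disc_diff hA hB hC c₁ t) (hd_ne t ht)
    · -- the critical value is not in the disc
      by_contra hcon
      push Not at hcon
      have hA0 : 0 < ‖A t‖ := norm_pos_iff.2 ht
      have hD0 : 0 < ‖disc A B C c₁ t‖ := norm_pos_iff.2 (hd_ne t ht)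
      have hlt : ‖disc A B C c₁ t / (4 * A t)‖ < ε := by
        rw [norm_div] at hcon
        rw [norm_div, norm_mul, Complex.norm_ofNat, div_lt_iff₀ (by positivity)]
        rw [div_lt_div_iff₀ (by positivity) hD0] at hcon
        linarith
      refine hno (c₁ - disc A B C c₁ t / (4 * A t)) (by
        rw [dist_eq_norm]
        simpa using hlt) t ht ?_
      have hfs : 4 * A t * (disc A B C c₁ t / (4 * A t)) = disc A B C c₁ t := by
        field_simp
      have : disc A B C (c₁ - disc A B C c₁ t / (4 * A t)) t =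
          disc A B C c₁ t - 4 * A t * (disc A B C c₁ t / (4 * A t)) := by
        simp only [disc]; ring
      rw [this, hfs, sub_self]
  -- the constant
  set e : ℂ := disc A B C c₁ y₁ / (4 * A y₁) with he
  have he0 : e ≠ 0 := div_ne_zero hd1 (mul_ne_zero (by norm_num) h1)
  have hde : ∀ y, A y ≠ 0 → disc A B C c₁ y = 4 * e * A y := by
    intro y hy
    have h2 := hconst y hy
    have h3 := hd_ne y hy
    rw [div_eq_div_iff h3 hd1] at h2
    rw [he]
    field_simp
    linear_combination -h2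
  -- the choice of the square root
  set τ : ℂ := Wd A B f y₁ (sqr (disc A B C c₁ y₁)) with hτ
  let σ : ℂ → ℂ := fun y => if Wd A B f y (sqr (disc A B C c₁ y)) = τ then
    sqr (disc A B C c₁ y) else -sqr (disc A B C c₁ y)
  have hσ2 : ∀ y, σ y ^ 2 = disc A B C c₁ y := by
    intro y
    by_cases h : Wd A B f y (sqr (disc A B C c₁ y)) = τ
    · simp only [σ, if_pos h, sqr_sq]
    · simp only [σ, if_neg h, neg_sq, sqr_sq]
  have hσW : ∀ y, A y ≠ 0 → Wd A B f y (σ y) = τ := by
    intro y hy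
    have h2 := hsq c₁ y y₁ hy (hd_ne y hy) h1 hd1
    by_cases h : Wd A B f y (sqr (disc A B C c₁ y)) = τ
    · simp only [σ, if_pos h]
      exact h
    · simp only [σ, if_neg h, Wd_neg]
      rcases sq_eq_sq_iff_eq_or_eq_neg.1 h2 with h3 | h3
      · exact absurd h3 h
      · rw [h3, neg_neg]
  have hσd : ∀ y, A y ≠ 0 → DifferentiableAt ℂ σ y := by
    intro y hy
    obtain ⟨s, hs0, hsd, hs⟩ := branch (s₀ := σ y) (disc_diff hA hB hC c₁ y) (hσ2 y) (hd_ne y hy)
    have hWc : ContinuousAt (fun x => Wd A B f x (s x)) y :=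
      ((evr_diff hA hB hf hy hsd).sub (evr_diff hA hB hf hy hsd.neg)).continuousAt
    have hWy : Wd A B f y (s y) = τ := by rw [hs0]; exact hσW y hy
    have hne : Wd A B f y (s y) ≠ -τ := by
      rw [hWy]
      intro h
      have : 2 * τ = 0 := by linear_combination h
      rcases mul_eq_zero.1 this with h2 | h2
      · norm_num at h2
      · exact hW1 h2
    have hev := hWc.eventually_ne hne
    have hevA := (hA y).continuousAt.eventually_ne hy
    refine hsd.congr_of_eventuallyEq ?_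
    filter_upwards [hev, hevA] with x hx hxA
    have h5 : s x ^ 2 = σ x ^ 2 := by rw [hs, hσ2]
    rcases sq_eq_sq_iff_eq_or_eq_neg.1 h5 with h6 | h6
    · exact h6.symm
    · exfalso
      apply hx
      rw [h6, Wd_neg, hσW x hxA]
  -- the square root of `A`
  have hr0 : sqr e ≠ 0 := by
    intro h
    apply he0
    rw [← sqr_sq e, h]
    ring
  have hu2 : ∀ y, A y ≠ 0 → (σ y / (2 * sqr e)) ^ 2 = A y := by
    intro y hy
    rw [div_pow, hσ2, hde y hy, mul_pow, sqr_sq]
    field_simp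
    ring
  obtain ⟨h, hh, hhu⟩ := extend hA h1 (u := fun y => σ y / (2 * sqr e)) (w := A)
    (fun y hy => (hσd y hy).div_const _) hA.continuous hu2
  have hAh : ∀ y, A y = h y ^ 2 := by
    intro y
    refine (eq_of_off hA h1 hA.continuous (hh.pow 2).continuous (fun t ht => ?_) y)
    simp only [Pi.pow_apply]
    rw [hhu t ht]
    exact (hu2 t ht).symm
  have hh0 : ∀ y, A y ≠ 0 → h y ≠ 0 := by
    intro y hy h0
    apply hy
    rw [hAh, h0]
    ring
  have hk2 : ∀ y, A y ≠ 0 → (B y / (2 * h y)) ^ 2 = C y - (c₁ - e) := by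
    intro y hy
    have h3 := hde y hy
    rw [div_pow, mul_pow, ← hAh, div_eq_iff (mul_ne_zero (by norm_num) hy)]
    simp only [disc] at h3
    linear_combination h3
  obtain ⟨k, hk, hku⟩ := extend hA h1 (u := fun y => B y / (2 * h y))
    (w := fun y => C y - (c₁ - e))
    (fun y hy => (hB y).div ((differentiableAt_const _).mul (hh y))
      (mul_ne_zero two_ne_zero (hh0 y hy))) (hC.continuous.sub continuous_const) hk2
  refine ⟨c₁ - e, h, k, hh, hk, hAh, ?_, ?_⟩
  · intro y
    refine eq_of_off hA h1 hB.continuous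
      (((differentiable_const (2 : ℂ)).mul hh).mul hk).continuous (fun t ht => ?_) y
    have h7 := hh0 t ht
    simp only [Pi.mul_apply]
    rw [hku t ht]
    field_simp
  · intro y
    refine eq_of_off hA h1 hC.continuous
      ((hk.pow 2).add (differentiable_const (c₁ - e))).continuous (fun t ht => ?_) y
    have h8 := hk2 t ht
    rw [← hku t ht] at h8
    simp only [Pi.add_apply, Pi.pow_apply]
    linear_combination -h8

end

/-- `z ↦ A(z₁) z₀² + B(z₁) z₀ + C(z₁)` on `ℂ^(m+2)` -/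
def quadn {m : ℕ} (A B C : ℂ → ℂ) (z : Fin (m + 2) → ℂ) : ℂ :=
  A (z 1) * z 0 ^ 2 + B (z 1) * z 0 + C (z 1)

/-- the point with the first two coordinates `x`, `y` and the other coordinates those of `z` -/
def upd {m : ℕ} (z : Fin (m + 2) → ℂ) (x y : ℂ) : Fin (m + 2) → ℂ :=
  fun i => if i = 0 then x else if i = 1 then y else z i

lemma upd_0 {m : ℕ} (z : Fin (m + 2) → ℂ) (x y : ℂ) : upd z x y 0 = x := by simp [upd]
lemma upd_1 {m : ℕ} (z : Fin (m + 2) → ℂ) (x y : ℂ) : upd z x y 1 = y := by simp [upd]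

/-- `κ + (h(z₁) z₀ + k(z₁))²` is not an L-atom -/
theorem not_atom_sq {m : ℕ} {h k : ℂ → ℂ} (hh : Differentiable ℂ h) (hk : Differentiable ℂ k)
    {y₀ : ℂ} (h0 : h y₀ ≠ 0) (κ : ℂ) :
    ¬ LAtom (fun z : Fin (m + 2) → ℂ => (h (z 1) * z 0 + k (z 1)) ^ 2 + κ) := by
  rintro ⟨-, -, hat⟩
  have d0 : Differentiable ℂ (fun z : Fin (m + 2) → ℂ => z 0) := differentiable_apply 0
  have d1 : Differentiable ℂ (fun z : Fin (m + 2) → ℂ => z 1) := differentiable_apply 1
  let b : (Fin (m + 2) → ℂ) → ℂ := fun z => h (z 1) * z 0 + k (z 1)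
  have hb : Differentiable ℂ b := ((hh.comp d1).mul d0).add (hk.comp d1)
  have hsurj : ∀ w, ∃ z, b z = w := by
    intro w
    refine ⟨upd 0 ((w - k y₀) / h y₀) y₀, ?_⟩
    simp only [b, upd_0, upd_1]
    field_simp
    ring
  have hpair : LPair b (fun z : Fin (m + 2) → ℂ => (h (z 1) * z 0 + k (z 1)) ^ 2 + κ) := by
    intro z _ hL K hK _
    have hcl : IsClosed {w : ℂ | w ^ 2 + κ ∈ K} :=
      hK.isClosed.preimage ((continuous_pow 2).add continuous_const)
    obtain ⟨M, hM⟩ := hK.isBounded.exists_norm_le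
    have hbd : {w : ℂ | w ^ 2 + κ ∈ K} ⊆ Metric.closedBall 0 (Real.sqrt (M + ‖κ‖)) := by
      intro w hw
      rw [mem_closedBall_zero_iff]
      apply Real.le_sqrt_of_sq_le
      have h1 := hM _ hw
      have h2 : ‖w ^ 2‖ ≤ ‖w ^ 2 + κ‖ + ‖κ‖ := by
        have := norm_sub_le (w ^ 2 + κ) κ
        simpa using this
      rw [norm_pow] at h2
      linarith
    have hcomp : IsCompact {w : ℂ | w ^ 2 + κ ∈ K} :=
      (isCompact_closedBall (0 : ℂ) _).of_isClosed_subset hcl hbd
    exact hL _ hcomp (fun w _ => hsurj w)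
  obtain ⟨φ, -, hφ⟩ := hat b hb hpair
  obtain ⟨z, hz⟩ := hsurj 1
  obtain ⟨z', hz'⟩ := hsurj (-1)
  have e1 : b z = φ ((h (z 1) * z 0 + k (z 1)) ^ 2 + κ) := hφ z
  have e2 : b z' = φ ((h (z' 1) * z' 0 + k (z' 1)) ^ 2 + κ) := hφ z'
  have e3 : h (z 1) * z 0 + k (z 1) = 1 := hz
  have e4 : h (z' 1) * z' 0 + k (z' 1) = -1 := hz'
  rw [hz, e3] at e1
  rw [hz', e4] at e2
  norm_num at e1 e2
  rw [← e1] at e2
  norm_num at e2

/-- **L-atoms of degree two in the first variable.** -/
theorem quad_atom_iff {m : ℕ} {A B C : ℂ → ℂ} (hA : Differentiable ℂ A) (hB : Differentiable ℂ B)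
    (hC : Differentiable ℂ C) {y₀ : ℂ} (h0 : A y₀ ≠ 0) :
    LAtom (quadn A B C : (Fin (m + 2) → ℂ) → ℂ) ↔
      ¬ ∃ (κ : ℂ) (h k : ℂ → ℂ), Differentiable ℂ h ∧ Differentiable ℂ k ∧
      (∀ y, A y = h y ^ 2) ∧ (∀ y, B y = 2 * h y * k y) ∧ (∀ y, C y = k y ^ 2 + κ) := by
  constructor
  · rintro hat ⟨κ, h, k, hh, hk, e1, e2, e3⟩
    have hh0 : h y₀ ≠ 0 := by
      intro hz
      apply h0
      rw [e1, hz]
      ring
    apply not_atom_sq (m := m) hh hk hh0 κ
    have : (fun z : Fin (m + 2) → ℂ => (h (z 1) * z 0 + k (z 1)) ^ 2 + κ) = quadn A B C := by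
      funext z
      simp only [quadn, e1, e2, e3]
      ring
    rw [this]
    exact hat
  · intro hno
    have d0 : Differentiable ℂ (fun z : Fin (m + 2) → ℂ => z 0) := differentiable_apply 0
    have d1 : Differentiable ℂ (fun z : Fin (m + 2) → ℂ => z 1) := differentiable_apply 1
    have hqn : ∀ (z : Fin (m + 2) → ℂ) (x y : ℂ), quadn A B C (upd z x y) = quad A B C ![x, y] := by
      intro z x y
      simp [quadn, quad, upd_0, upd_1]
    have hsurj : ∀ c, quadn A B C (upd (0 : Fin (m + 2) → ℂ)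
        ((-B y₀ + sqr (disc A B C c y₀)) / (2 * A y₀)) y₀) = c := by
      intro c
      rw [hqn, quad_root h0 (sqr_sq _)]
    refine ⟨(((hA.comp d1).mul (d0.pow 2)).add ((hB.comp d1).mul d0)).add (hC.comp d1),
      ⟨_, _, ((hsurj 0).trans_ne zero_ne_one).trans_eq (hsurj 1).symm⟩, ?_⟩
    intro f hf hp
    have hbd : ∀ c, ∃ M : ℝ, ∀ z, quadn A B C z = c → ‖f z‖ ≤ M := fun c =>
      bdd_fibre hf hp c ⟨_, hsurj c⟩
    -- `f` depends on the first two coordinates only
    have hdep : ∀ z : Fin (m + 2) → ℂ, f z = f (upd 0 (z 0) (z 1)) := by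
      intro z
      obtain ⟨M, hM⟩ := hbd (quadn A B C z)
      let l : ℂ → (Fin (m + 2) → ℂ) := fun t => z + t • (upd 0 (z 0) (z 1) - z)
      have hl : Differentiable ℂ l := fun t => (differentiableAt_id.smul_const _).const_add _
      have hlq : ∀ t, quadn A B C (l t) = quadn A B C z := by
        intro t
        simp [quadn, l, upd_0, upd_1]
      have h1 : f (l 0) = f (l 1) := by
        apply (hf.comp hl).apply_eq_apply_of_bounded
        rw [isBounded_iff_forall_norm_le]
        refine ⟨M, ?_⟩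
        rintro _ ⟨t, rfl⟩
        exact hM _ (hlq t)
      simpa [l] using h1
    -- the function on `ℂ²`
    let f2 : (Fin 2 → ℂ) → ℂ := fun w => f (upd 0 (w 0) (w 1))
    have hud : Differentiable ℂ (fun w : Fin 2 → ℂ => upd (0 : Fin (m + 2) → ℂ) (w 0) (w 1)) := by
      rw [differentiable_pi]
      intro i
      unfold upd
      by_cases i0 : i = 0
      · simp only [i0, if_true]; exact differentiable_apply 0
      · by_cases i1 : i = 1
        · simp only [i1, one_ne_zero, if_true, if_false]; exact differentiable_apply 1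
        · simp only [i0, i1, if_false]; exact differentiable_const _
    have hf2 : Differentiable ℂ f2 := hf.comp hud
    have hbd2 : ∀ c, ∃ M : ℝ, ∀ w, quad A B C w = c → ‖f2 w‖ ≤ M := by
      intro c
      obtain ⟨M, hM⟩ := hbd c
      refine ⟨M, fun w hw => hM _ ?_⟩
      rw [hqn, ← hw]
      simp [quad]
    have hfin : ∃ φ : ℂ → ℂ, Differentiable ℂ φ ∧ ∀ w, f2 w = φ (quad A B C w) := by
      by_cases hW : ∀ c y, A y ≠ 0 → disc A B C c y ≠ 0 →
          Wd A B f2 y (sqr (disc A B C c y)) = 0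
      · exact factor hA hB hC hf2 hbd2 h0 hW
      · push Not at hW
        obtain ⟨c₁, y₁, a1, a2, a3⟩ := hW
        exact absurd (split hA hB hC hf2 hbd2 a1 a2 a3) hno
    obtain ⟨φ, hφ, hφ2⟩ := hfin
    refine ⟨φ, hφ.differentiableOn, fun z => ?_⟩
    rw [hdep z]
    have := hφ2 ![z 0, z 1]
    simpa [f2, quad, quadn] using this

end Pool.Agent.H44.LA
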